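import Pool.Agent.L5helper26.DM.Line

set_option autoImplicit false

/-! Backward orbits of a noncritical periodic point of a rational function. -/

namespace Pool.Agent.L5helper26.PN

open MvPolynomial Pool.Agent.H936R2 Pool.Agent.R847.PC
open Pool.Agent.L5helper26.DM

theorem cross_smul (c : ℂ) (a b : Fin 2 → ℂ) : cross (c • a) b = c * cross a b := by
  simp only [cross, Pi.smul_apply, smul_eq_mul]
  ring

theorem cross_par {a b : Fin 2 → ℂ} (h : Par a b) : cross a b = 0 := by
  obtain ⟨δ, -, rfl⟩ := h
  simp only [cross, Pi.smul_apply, smul_eq_mul]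
  ring

theorem par_cross {a b : Fin 2 → ℂ} (ha : a ≠ 0) (hb : b ≠ 0) (h : cross a b = 0) : Par a b := by
  obtain ⟨δ, h1, h2⟩ := par_of_cross ha hb h
  exact ⟨δ, h1, h2⟩

section

variable {d : ℕ} (F : Fin 2 → MvPolynomial (Fin 2) ℂ) (hF : ∀ i, (F i).IsHomogeneous d)
  (halg : ∀ i κ, IsAlgebraic ℚ ((F i).coeff κ))
  (h0 : ∀ x : Fin 2 → ℂ, (∀ i, eval x (F i) = 0) → x = 0)

include hF halg in
/-- A noncritical point is not the only preimage of its image. -/
theorem exists_other (hd : 2 ≤ d) (z : Fin 2 → ℂ) (hz : z ≠ 0)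
    (hj : (jac F z).det ≠ 0) (B : Fin 2 → ℂ) (hB : Alg B) (hFB : cross (pt F z) B = 0) :
    ∃ w : Fin 2 → ℂ, Alg w ∧ cross (pt F w) B = 0 ∧ cross w z ≠ 0 := by
  let G : Polynomial ℂ := Polynomial.C (B 1) * dh (F 0) - Polynomial.C (B 0) * dh (F 1)
  have hGalg : ∀ k, IsAlgebraic ℚ (G.coeff k) :=
    alg_C_mul_sub (hB.2 1) (hB.2 0) (dh_alg _ (halg 0)) (dh_alg _ (halg 1))
  have hev : ∀ w, G.eval w = cross (pt F ![w, 1]) B := by
    intro w
    rw [pt_affine]
    simp only [G, Polynomial.eval_sub, Polynomial.eval_mul, Polynomial.eval_C, cross,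
      Matrix.cons_val_zero, Matrix.cons_val_one]
    ring
  have hlead : G.coeff d = cross (pt F ![1, 0]) B := by
    rw [pt_infinity F hF]
    simp only [G, Polynomial.coeff_sub, Polynomial.coeff_C_mul, cross, Matrix.cons_val_zero,
      Matrix.cons_val_one]
    ring
  by_cases hz1 : z 1 = 0
  · -- infinity
    have hz0 : z 0 ≠ 0 := by
      intro h
      apply hz
      funext i
      fin_cases i
      · exact h
      · exact hz1
    have hpar : Par z ![1, 0] := par_cross hz alg_infinity.1 (by simp [cross, hz1])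
    have hj' : (jac F ![1, 0]).det ≠ 0 := jac_par hF hpar.symm hj
    rw [jac_infinity (by omega) F hF] at hj'
    have hFB' : cross (pt F ![1, 0]) B = 0 := by
      obtain ⟨δ, hδ, h1⟩ := hpar.symm.map hF
      rw [h1, cross_smul, hFB, mul_zero]
    have hGd1 : G.coeff (d - 1) ≠ 0 := by
      intro h
      apply hj'
      rw [pt_infinity F hF] at hFB'
      simp only [cross, Matrix.cons_val_zero, Matrix.cons_val_one] at hFB'
      simp only [G, Polynomial.coeff_sub, Polynomial.coeff_C_mul] at h
      by_cases hB0 : B 0 = 0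
      · have hB1 : B 1 ≠ 0 := by
          intro h'
          apply hB.1
          funext i
          fin_cases i
          · exact hB0
          · exact h'
        have e1 : (dh (F 0)).coeff d = 0 := by
          rw [hB0, mul_zero, sub_zero] at hFB'
          exact (mul_eq_zero.1 hFB').resolve_right hB1
        have e2 : (dh (F 0)).coeff (d - 1) = 0 := by
          rw [hB0, zero_mul, sub_zero] at h
          exact (mul_eq_zero.1 h).resolve_left hB1
        rw [e1, e2]
        ring
      · have e : (B 0) * ((dh (F 0)).coeff d * (dh (F 1)).coeff (d - 1) -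
            (dh (F 0)).coeff (d - 1) * (dh (F 1)).coeff d) = 0 := by
          linear_combination (-(dh (F 0)).coeff d) * h + (dh (F 0)).coeff (d - 1) * hFB'
        rw [(mul_eq_zero.1 e).resolve_left hB0, mul_zero]
    have hG0 : G ≠ 0 := by
      intro h
      rw [h, Polynomial.coeff_zero] at hGd1
      exact hGd1 rfl
    have hdeg : G.degree ≠ 0 := by
      intro h
      have h1 : G.natDegree = 0 := Polynomial.natDegree_eq_of_degree_eq_some h
      have h2 := Polynomial.le_natDegree_of_ne_zero hGd1
      omega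
    obtain ⟨w, hw⟩ := IsAlgClosed.exists_root G hdeg
    rw [Polynomial.IsRoot.def] at hw
    refine ⟨![w, 1], alg_affine (root_alg G hG0 hGalg w hw), ?_, ?_⟩
    · rw [← hev, hw]
    · simp only [cross, Matrix.cons_val_zero, Matrix.cons_val_one, hz1, mul_zero, one_mul, zero_sub]
      exact neg_ne_zero.2 hz0
  · -- affine
    set ζ : ℂ := z 0 / z 1 with hζ
    have hpar : Par z ![ζ, 1] := par_cross hz (by
      intro h
      have := congrFun h 1
      simp at this) (by
      simp only [cross, Matrix.cons_val_zero, Matrix.cons_val_one, hζ]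
      field_simp
      ring)
    have hj' : (jac F ![ζ, 1]).det ≠ 0 := jac_par hF hpar.symm hj
    rw [jac_affine F hF] at hj'
    have hFB' : cross (pt F ![ζ, 1]) B = 0 := by
      obtain ⟨δ, hδ, h1⟩ := hpar.symm.map hF
      rw [h1, cross_smul, hFB, mul_zero]
    have hGζ : G.eval ζ = 0 := by rw [hev, hFB']
    have hGd : G.derivative.eval ζ ≠ 0 := by
      intro h
      apply hj'
      rw [pt_affine] at hFB'
      simp only [cross, Matrix.cons_val_zero, Matrix.cons_val_one] at hFB'
      simp only [G, Polynomial.derivative_sub, Polynomial.derivative_C_mul, Polynomial.eval_sub,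
        Polynomial.eval_mul, Polynomial.eval_C] at h
      by_cases hB0 : B 0 = 0
      · have hB1 : B 1 ≠ 0 := by
          intro h'
          apply hB.1
          funext i
          fin_cases i
          · exact hB0
          · exact h'
        have e1 : (dh (F 0)).eval ζ = 0 := by
          rw [hB0, mul_zero, sub_zero] at hFB'
          exact (mul_eq_zero.1 hFB').resolve_right hB1
        have e2 : (dh (F 0)).derivative.eval ζ = 0 := by
          rw [hB0, zero_mul, sub_zero] at h
          exact (mul_eq_zero.1 h).resolve_left hB1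
        rw [e1, e2]
        ring
      · have e : (B 0) * ((dh (F 0)).derivative.eval ζ * (dh (F 1)).eval ζ -
            (dh (F 0)).eval ζ * (dh (F 1)).derivative.eval ζ) = 0 := by
          linear_combination (dh (F 0)).eval ζ * h - (dh (F 0)).derivative.eval ζ * hFB'
        rw [(mul_eq_zero.1 e).resolve_left hB0, mul_zero]
    have hG0 : G ≠ 0 := by
      intro h
      rw [h] at hGd
      simp at hGd
    by_cases hc : G.coeff d = 0
    · refine ⟨![1, 0], alg_infinity, ?_, ?_⟩
      · rw [← hlead, hc]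
      · simp only [cross, Matrix.cons_val_zero, Matrix.cons_val_one, one_mul, zero_mul, sub_zero]
        exact hz1
    · have hGn : d ≤ G.natDegree := Polynomial.le_natDegree_of_ne_zero hc
      obtain ⟨G₁, hG₁⟩ := Polynomial.dvd_iff_isRoot.2 (show G.IsRoot ζ from hGζ)
      have hG₁0 : G₁ ≠ 0 := by
        rintro rfl
        rw [mul_zero] at hG₁
        exact hG0 hG₁
      have hn : G.natDegree = 1 + G₁.natDegree := by
        rw [hG₁, Polynomial.natDegree_mul (Polynomial.X_sub_C_ne_zero ζ) hG₁0,
          Polynomial.natDegree_X_sub_C]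
      have hdeg : G₁.degree ≠ 0 := by
        intro h
        have h1 : G₁.natDegree = 0 := Polynomial.natDegree_eq_of_degree_eq_some h
        omega
      obtain ⟨w, hw⟩ := IsAlgClosed.exists_root G₁ hdeg
      rw [Polynomial.IsRoot.def] at hw
      have hGw : G.eval w = 0 := by rw [hG₁, Polynomial.eval_mul, hw, mul_zero]
      have hwζ : w ≠ ζ := by
        rintro rfl
        apply hGd
        rw [hG₁, Polynomial.derivative_mul, Polynomial.eval_add, Polynomial.eval_mul,
          Polynomial.eval_mul, hw]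
        simp
      refine ⟨![w, 1], alg_affine (root_alg G hG0 hGalg w hGw), ?_, ?_⟩
      · rw [← hev, hGw]
      · simp only [cross, Matrix.cons_val_zero, Matrix.cons_val_one]
        intro h
        apply hwζ
        rw [hζ]
        field_simp
        linear_combination h

include halg in
/-- Algebraic points have algebraic images. -/
theorem pt_alg (v : Fin 2 → ℂ) (hv : ∀ i, IsAlgebraic ℚ (v i)) (i : Fin 2) :
    IsAlgebraic ℚ (pt F v i) := by
  have h1 : F i ∈ Set.range (map (σ := Fin 2) (algebraMap (algebraicClosure ℚ ℂ) ℂ)) := by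
    rw [mem_range_map_iff_coeffs_subset]
    intro c hc
    rw [Finset.mem_coe, mem_coeffs_iff] at hc
    obtain ⟨κ, -, rfl⟩ := hc
    exact ⟨⟨(F i).coeff κ, mem_algebraicClosure_iff.2 (halg i κ)⟩, rfl⟩
  obtain ⟨P', hP'⟩ := h1
  let v' : Fin 2 → algebraicClosure ℚ ℂ := fun i => ⟨v i, mem_algebraicClosure_iff.2 (hv i)⟩
  have h2 : pt F v i = ((eval v' P' : algebraicClosure ℚ ℂ) : ℂ) := by
    change eval v (F i) = _
    rw [← hP', eval_map]
    have h3 := eval₂_comp_left (algebraMap (algebraicClosure ℚ ℂ) ℂ) (RingHom.id _) v' P'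
    rw [RingHom.comp_id] at h3
    exact h3.symm
  rw [h2]
  exact mem_algebraicClosure_iff.1 (Subtype.mem _)

include halg h0 in
theorem alg_iter {v : Fin 2 → ℂ} (hv : Alg v) (n : ℕ) : Alg ((pt F)^[n] v) := by
  induction n with
  | zero => exact hv
  | succ n ih =>
    rw [Function.iterate_succ_apply']
    exact ⟨pt_ne F h0 ih.1, fun i => pt_alg F halg _ ih.2 i⟩

include hF halg h0 in
/-- The backward orbit of a periodic point which is not critical at the last point of its cycle. -/
theorem exists_chain_per (hd : 2 ≤ d) (z : Fin 2 → ℂ) (hz : Alg z) (m : ℕ) (hm : 0 < m)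
    (hper : Par ((pt F)^[m] z) z) (hcrit : ∀ n, (jac F ((pt F)^[n] z)).det ≠ 0) :
    ∃ B : ℕ → Fin 2 → ℂ, (∀ k, Alg (B k)) ∧ B 0 = z ∧ (∀ k, Par (pt F (B (k + 1))) (B k)) ∧
      ∀ i j, i ≠ j → ¬ Par (B i) (B j) := by
  classical
  have hex : ∃ m, 0 < m ∧ Par ((pt F)^[m] z) z := ⟨m, hm, hper⟩
  let r := Nat.find hex
  obtain ⟨hr, hrper⟩ := Nat.find_spec hex
  have hmin : ∀ n, 0 < n → Par ((pt F)^[n] z) z → r ≤ n := fun n h1 h2 =>
    Nat.find_min' hex ⟨h1, h2⟩
  change 0 < r at hr
  change Par ((pt F)^[r] z) z at hrper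
  clear_value r
  obtain ⟨r', rfl⟩ : ∃ r', r = r' + 1 := ⟨r - 1, by omega⟩
  have hz' := alg_iter F halg h0 hz r'
  obtain ⟨w, hw, hw1, hw2⟩ := exists_other F hF halg hd _ hz'.1 (hcrit r') z hz (by
    rw [← Function.iterate_succ_apply' (f := pt F)]
    exact cross_par hrper)
  choose pre hpre1 hpre2 using fun v : {v : Fin 2 → ℂ // Alg v} =>
    exists_preimage F hF halg (show 1 ≤ d by omega) v.1 v.2
  let W : ℕ → {v : Fin 2 → ℂ // Alg v} := fun n =>
    Nat.rec (motive := fun _ => {v : Fin 2 → ℂ // Alg v}) ⟨w, hw⟩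
      (fun _ v => ⟨pre v, hpre1 v⟩) n
  let B : ℕ → Fin 2 → ℂ := fun n => Nat.casesOn n z (fun m => (W m).1)
  have hB0 : B 0 = z := rfl
  have hB1 : B 1 = w := rfl
  have hB2 : ∀ m, B (m + 2) = pre (W m) := fun m => rfl
  have hB3 : ∀ m, B (m + 1) = (W m).1 := fun m => rfl
  have hBalg : ∀ k, Alg (B k) := by
    intro k
    rcases k with _ | k
    · exact hz
    · rw [hB3]
      exact (W k).2
  have hstep : ∀ k, Par (pt F (B (k + 1))) (B k) := by
    intro k
    have hne := pt_ne F h0 (hBalg (k + 1)).1
    refine par_cross hne (hBalg k).1 ?_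
    rcases k with _ | k
    · exact hw1
    · rw [hB2, hB3]
      exact hpre2 (W k)
  -- the iterates of `z`
  have hmul : ∀ t, Par ((pt F)^[(r' + 1) * t] z) z := by
    intro t
    induction t with
    | zero => exact Par.refl _
    | succ t ih =>
      have e : (r' + 1) * (t + 1) = (r' + 1) * t + (r' + 1) := by ring
      rw [e, Function.iterate_add_apply]
      exact (hrper.iter hF _).trans ih
  have hmod : ∀ l, Par ((pt F)^[l] z) ((pt F)^[l % (r' + 1)] z) := by
    intro l
    have e : l = l % (r' + 1) + (r' + 1) * (l / (r' + 1)) := (Nat.mod_add_div l (r' + 1)).symm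
    have h1 : Par ((pt F)^[l % (r' + 1) + (r' + 1) * (l / (r' + 1))] z)
        ((pt F)^[l % (r' + 1)] z) := by
      rw [Function.iterate_add_apply]
      exact (hmul _).iter hF _
    rw [← e] at h1
    exact h1
  have hk0 : ∀ k, ¬ Par (B (k + 1)) (B 0) := by
    intro k h
    have e1 : Par ((pt F)^[k] (B (1 + k))) (B 1) := Par.chain hF hstep 1 k
    rw [Nat.add_comm 1 k] at e1
    -- `w` is parallel to the iterate
    have e2 : Par w ((pt F)^[k] z) := (e1.symm.trans (h.iter hF k))
    have e3 : Par w ((pt F)^[k % (r' + 1)] z) := e2.trans (hmod k)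
    have e4 : Par ((pt F)^[k % (r' + 1) + 1] z) z := by
      rw [Function.iterate_succ_apply']
      exact ((e3.map hF).symm).trans (hstep 0)
    have e5 := hmin _ (Nat.succ_pos _) e4
    have e6 : k % (r' + 1) = r' := by
      have : k % (r' + 1) < r' + 1 := Nat.mod_lt k (by omega)
      omega
    rw [e6] at e3
    exact hw2 (cross_par e3)
  have hij : ∀ i j, i < j → ¬ Par (B i) (B j) := by
    intro i j hlt h
    obtain ⟨l, rfl⟩ := Nat.exists_eq_add_of_lt hlt
    have e1 : Par ((pt F)^[i] (B (0 + i))) (B 0) := Par.chain hF hstep 0 i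
    have e2 : Par ((pt F)^[i] (B (l + 1 + i))) (B (l + 1)) := Par.chain hF hstep (l + 1) i
    rw [Nat.zero_add] at e1
    have e3 : i + l + 1 = l + 1 + i := by ring
    rw [e3] at h
    exact hk0 l ((e2.symm.trans (h.symm.iter hF i)).trans e1)
  refine ⟨B, hBalg, hB0, hstep, fun i j hne h => ?_⟩
  rcases lt_or_gt_of_ne hne with h' | h'
  · exact hij i j h' h
  · exact hij j i h' h.symm

end

end Pool.Agent.L5helper26.PN
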