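import Pool.Agent.L5helper26.DM.Line

set_option autoImplicit false

/-! Relative strict critical finiteness modulo almost all primes. -/

namespace Pool.Agent.L5helper26.PN

open MvPolynomial Pool.Agent.H936R2 Pool.Agent.R847.QP Pool.Agent.R847.Gap Pool.Agent.R847.PC
open Pool.Agent.L5helper26.DM

variable {ι : Type} [Fintype ι] [DecidableEq ι]

/-- For almost all `p`: the cycles in the first member of the chain with critical points are contained
in the subspace `z (b 0) = z (b 1) = 0`. -/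
theorem rel_cert (f : ι → MvPolynomial ι ℂ) (b : Fin 2 → ι) (k : ℕ) (D : ℕ → Set (MvPolynomial ι ℂ))
    (hinv : ∀ i, i ≤ k → ∀ z : ι → ℂ, (∀ g ∈ D i, eval z g = 0) →
      ∀ g ∈ D i, eval (pt f z) g = 0)
    (hcrit : ∀ i < k, ∃ m : ℕ, ∀ z : ι → ℂ, (∀ g ∈ D i, eval z g = 0) → (jac f z).det = 0 →
      ∀ g ∈ D (i + 1), eval ((pt f)^[m] z) g = 0)
    (hend : ∀ z : ι → ℂ, (∀ g ∈ D k, eval z g = 0) → ∀ j, z (b j) = 0) :
    ∃ (s : Finset ℂ) (E : Finset (MvPolynomial ι ℂ)), (E : Set (MvPolynomial ι ℂ)) ⊆ D 0 ∧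
      ∀ R : Subring ℂ, (s : Set ℂ) ⊆ R →
      ∀ fR : ι → MvPolynomial ι R, (∀ i, map R.subtype (fR i) = f i) →
      ∀ (kk : Type) [Field kk] (ρ : R →+* kk) (z : ι → kk), (∀ g ∈ E, ev ρ z g = 0) →
        ∀ q : ℕ, 0 < q → (pt fun i => map ρ (fR i))^[q] z = z →
          (jac (fun i => map ρ (fR i)) z).det = 0 → ∀ j, z (b j) = 0 := by
  classical
  have hE1 : ∀ i, ∃ B' : Finset (MvPolynomial ι ℂ), (B' : Set (MvPolynomial ι ℂ)) ⊆ D i ∧
      ∀ z : ι → ℂ, (∃ g ∈ D i, eval z g ≠ 0) → ∃ g ∈ B', eval z g ≠ 0 := fun i => finite_sub (D i)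
  choose E hED hE using hE1
  have hEz : ∀ i (z : ι → ℂ), (∀ g ∈ E i, eval z g = 0) ↔ (∀ g ∈ D i, eval z g = 0) := by
    intro i z
    constructor
    · intro h g hg
      by_contra hne
      obtain ⟨g', hg', hne'⟩ := hE i z ⟨g, hg, hne⟩
      exact hne' (h g' hg')
    · exact fun h g hg => h g (hED i hg)
  choose! m hm using hcrit
  have hinv' : ∀ i, i ≤ k → ∃ s : Finset ℂ, ∀ (R : Subring ℂ), (s : Set ℂ) ⊆ R →
      (∀ P ∈ E i, Int R P) → (∀ g ∈ (E i).image (pull f 1), Int R g) →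
      ∀ (k : Type) [Field k] (ρ : R →+* k) (z : ι → k),
        (∀ P ∈ E i, ev ρ z P = 0) → ∀ g ∈ (E i).image (pull f 1), ev ρ z g = 0 := by
    intro i hik
    apply cert_finset
    intro z hz g hg
    obtain ⟨g', hg', rfl⟩ := Finset.mem_image.1 hg
    rw [eval_pull]
    exact hinv i hik z ((hEz i z).1 hz) g' (hED i hg')
  choose! s1 hs1 using hinv'
  have hcrit' : ∀ i, i < k → ∃ s : Finset ℂ, ∀ (R : Subring ℂ), (s : Set ℂ) ⊆ R →
      (∀ P ∈ insert (jdet f) (E i), Int R P) → (∀ g ∈ (E (i + 1)).image (pull f (m i)), Int R g) →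
      ∀ (k : Type) [Field k] (ρ : R →+* k) (z : ι → k),
        (∀ P ∈ insert (jdet f) (E i), ev ρ z P = 0) →
        ∀ g ∈ (E (i + 1)).image (pull f (m i)), ev ρ z g = 0 := by
    intro i hik
    apply cert_finset
    intro z hz g hg
    obtain ⟨g', hg', rfl⟩ := Finset.mem_image.1 hg
    rw [eval_pull]
    refine hm i hik z ((hEz i z).1 fun P hP => hz P (Finset.mem_insert_of_mem hP)) ?_ g'
      (hED _ hg')
    rw [← eval_jdet]
    exact hz _ (Finset.mem_insert_self _ _)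
  choose! s2 hs2 using hcrit'
  obtain ⟨s3, hs3⟩ := cert_finset (ι := ι) (E k) (Finset.univ.image fun j => X (b j)) (by
    intro z hz g hg
    obtain ⟨j, -, rfl⟩ := Finset.mem_image.1 hg
    rw [eval_X, hend z ((hEz k z).1 hz) j])
  obtain ⟨c2, hc2⟩ := coeffs_finset ((Finset.range (k + 1)).biUnion E)
  let s : Finset ℂ := (Finset.range (k + 1)).biUnion s1 ∪ (Finset.range (k + 1)).biUnion s2 ∪
    s3 ∪ c2
  refine ⟨s, E 0, hED 0, fun R hR fR hfR kk _ ρ z hz0 q hq hper hdet => ?_⟩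
  have hs3R : (s3 : Set ℂ) ⊆ R := fun x hx => hR (by simp [s, Finset.mem_coe.1 hx])
  have hc2R : (c2 : Set ℂ) ⊆ R := fun x hx => hR (by simp [s, Finset.mem_coe.1 hx])
  have hs1R : ∀ i, i ≤ k → (s1 i : Set ℂ) ⊆ R := by
    intro i hi x hx
    apply hR
    have : x ∈ (Finset.range (k + 1)).biUnion s1 :=
      Finset.mem_biUnion.2 ⟨i, Finset.mem_range.2 (by omega), hx⟩
    simp only [s, Finset.coe_union, Set.mem_union, Finset.mem_coe]
    tauto
  have hs2R : ∀ i, i ≤ k → (s2 i : Set ℂ) ⊆ R := by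
    intro i hi x hx
    apply hR
    have : x ∈ (Finset.range (k + 1)).biUnion s2 :=
      Finset.mem_biUnion.2 ⟨i, Finset.mem_range.2 (by omega), hx⟩
    simp only [s, Finset.coe_union, Set.mem_union, Finset.mem_coe]
    tauto
  have hEInt : ∀ i, i ≤ k → ∀ g ∈ E i, Int R g := fun i hi g hg =>
    hc2 R hc2R _ (Finset.mem_biUnion.2 ⟨i, Finset.mem_range.2 (by omega), hg⟩)
  let zb : ℕ → ι → kk := fun n => (pt fun i => map ρ (fR i))^[n] z
  have hzb : ∀ n l, (pt fun i => map ρ (fR i))^[l] (zb n) = zb (n + l) := by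
    intro n l
    change (pt fun i => map ρ (fR i))^[l] ((pt fun i => map ρ (fR i))^[n] z) = _
    rw [← Function.iterate_add_apply, Nat.add_comm l n]
  have hper1 : ∀ n, zb (n + q) = zb n := by
    intro n
    change (pt fun i => map ρ (fR i))^[n + q] z = (pt fun i => map ρ (fR i))^[n] z
    rw [Function.iterate_add_apply, hper]
  have hper2 : ∀ n t, zb (n + t * q) = zb n := by
    intro n t
    induction t with
    | zero => simp
    | succ t ih => rw [Nat.succ_mul, ← Nat.add_assoc, hper1, ih]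
  have hst1 : ∀ i, i ≤ k → ∀ n, (∀ g ∈ E i, ev ρ (zb n) g = 0) →
      ∀ g ∈ E i, ev ρ (zb (n + 1)) g = 0 := by
    intro i hik n hn g hg
    have h1 := hs1 i hik R (hs1R i hik) (hEInt i hik) (by
      intro g' hg'
      obtain ⟨g'', hg'', rfl⟩ := Finset.mem_image.1 hg'
      exact int_pull fR f hfR 1 g'' (hEInt i hik g'' hg'')) _ ρ (zb n) hn _
        (Finset.mem_image_of_mem _ hg)
    rw [ev_pull ρ fR f hfR 1 g (hEInt i hik g hg), hzb] at h1
    exact h1
  have hst1' : ∀ i, i ≤ k → ∀ n, (∀ g ∈ E i, ev ρ (zb n) g = 0) →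
      ∀ l, ∀ g ∈ E i, ev ρ (zb (n + l)) g = 0 := by
    intro i hik n hn l
    induction l with
    | zero => exact hn
    | succ l ih => exact hst1 i hik _ ih
  have hst2 : ∀ i, i < k → ∀ n, (∀ g ∈ E i, ev ρ (zb n) g = 0) → ev ρ (zb n) (jdet f) = 0 →
      ∀ g ∈ E (i + 1), ev ρ (zb (n + m i)) g = 0 := by
    intro i hik n hn hj g hg
    have h1 := hs2 i hik R (hs2R i hik.le) (by
      intro P hP
      rcases Finset.mem_insert.1 hP with rfl | hP
      · exact int_jdet fR f hfR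
      · exact hEInt i hik.le P hP) (by
      intro g' hg'
      obtain ⟨g'', hg'', rfl⟩ := Finset.mem_image.1 hg'
      exact int_pull fR f hfR _ g'' (hEInt (i + 1) hik g'' hg'')) _ ρ (zb n) (by
      intro P hP
      rcases Finset.mem_insert.1 hP with rfl | hP
      · exact hj
      · exact hn P hP) _ (Finset.mem_image_of_mem _ hg)
    rw [ev_pull ρ fR f hfR _ g (hEInt (i + 1) hik g hg), hzb] at h1
    exact h1
  have hJ : ev ρ (zb 0) (jdet f) = 0 := by
    rw [ev_jdet ρ fR f hfR]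
    exact hdet
  have hall : ∀ i, i ≤ k → ∀ n, ∀ g ∈ E i, ev ρ (zb n) g = 0 := by
    intro i
    induction i with
    | zero =>
      intro hk n g hg
      have := hst1' 0 hk 0 hz0 n g hg
      rwa [Nat.zero_add] at this
    | succ i ih =>
      intro hik n g hg
      have h1 := hst2 i (by omega) 0 (ih (by omega) 0) hJ
      have h2 := hst1' (i + 1) hik _ h1
      have h3 : 0 + m i ≤ n + (m i) * q := by
        have : m i ≤ m i * q := Nat.le_mul_of_pos_right _ hq
        omega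
      obtain ⟨l, hl⟩ := Nat.exists_eq_add_of_le h3
      rw [← hper2 n (m i), hl]
      exact h2 l g hg
  have hfin := hs3 R hs3R (hEInt k le_rfl) (by
    intro g hg
    obtain ⟨j, -, rfl⟩ := Finset.mem_image.1 hg
    exact ⟨X (b j), by rw [map_X]⟩) kk ρ (zb 0) (hall k le_rfl 0)
  intro j
  have h1 := hfin (X (b j)) (Finset.mem_image_of_mem _ (Finset.mem_univ j))
  have h2 : (X (b j) : MvPolynomial ι ℂ) = map R.subtype (X (b j)) := (map_X _ _).symm
  rw [h2, ev_map, eval₂_X] at h1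
  exact h1

end Pool.Agent.L5helper26.PN
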