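import Pool.Agent.L5helper26.PN.Near
import Pool.Agent.L5helper26.PN.Rel

set_option autoImplicit false

/-! Endomorphisms which preserve a pencil of hyperplanes and are strictly critically finite over a
periodic point of the pencil: the orbits with infinite image in the pencil are étale for sufficiently
many embeddings. -/

namespace Pool.Agent.L5helper26.PN

open MvPolynomial Pool.Agent.H936R2 Pool.Agent.R847.QP Pool.Agent.R847.Gap Pool.Agent.R847.PC
open Pool.Agent.Y199.DM Pool.Agent.L5helper26.DM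

/-- The reductions of the points of an orbit are periodic from some time on. -/
theorem res_periodic {p : ℕ} [hp : Fact p.Prime] {ι : Type} [Fintype ι] [DecidableEq ι]
    (τ : ℂ →+* PadicAlgCl p) (gR : ι → MvPolynomial ι (intR τ)) (aR : ι → intR τ) :
    ∃ M q : ℕ, 0 < q ∧ ∀ n, M ≤ n → (pt fun i => map (rd τ) (gR i))^[q]
      (fun i => rd τ ((pt gR)^[n] aR i)) = fun i => rd τ ((pt gR)^[n] aR i) := by
  obtain ⟨M, q, hq, hper⟩ := res_orbit_periodic p (fun i => map (toBall τ) (gR i))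
    (fun i => toBall τ (aR i))
  refine ⟨M, q, hq, fun n hn => ?_⟩
  have h1 := hper n hn
  have h2 := pt_map (toBall τ) gR aR n
  rw [h2] at h1
  have h3 : (fun i => map (res (PadicAlgCl p)) (map (toBall τ) (gR i))) =
      fun i => map (rd τ) (gR i) := by
    funext i
    exact map_map _ _ _
  rw [h3] at h1
  exact h1

variable {κ : Type} [Fintype κ] [DecidableEq κ]

/-- The system `(x, y) ↦ (F(x), R(x, y))`. -/
noncomputable def fibered (F : Fin 2 → MvPolynomial (Fin 2) ℂ)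
    (R : κ → MvPolynomial (Fin 2 ⊕ κ) ℂ) : Fin 2 ⊕ κ → MvPolynomial (Fin 2 ⊕ κ) ℂ :=
  Sum.elim (fun i => rename Sum.inl (F i)) R

omit [Fintype κ] [DecidableEq κ] in
theorem fibered_base1 (F : Fin 2 → MvPolynomial (Fin 2) ℂ) (R : κ → MvPolynomial (Fin 2 ⊕ κ) ℂ)
    (v : Fin 2 ⊕ κ → ℂ) : pt (fibered F R) v ∘ Sum.inl = pt F (v ∘ Sum.inl) := by
  funext i
  change eval v (rename Sum.inl (F i)) = eval (v ∘ Sum.inl) (F i)
  rw [eval_rename]

omit [Fintype κ] [DecidableEq κ] in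
theorem fibered_base (F : Fin 2 → MvPolynomial (Fin 2) ℂ) (R : κ → MvPolynomial (Fin 2 ⊕ κ) ℂ)
    (v : Fin 2 ⊕ κ → ℂ) (n : ℕ) :
    (pt (fibered F R))^[n] v ∘ Sum.inl = (pt F)^[n] (v ∘ Sum.inl) := by
  induction n with
  | zero => rfl
  | succ n ih => rw [Function.iterate_succ_apply', fibered_base1, ih, Function.iterate_succ_apply']

section

variable {d : ℕ} (F : Fin 2 → MvPolynomial (Fin 2) ℂ) (hF : ∀ i, (F i).IsHomogeneous d)
  (halg : ∀ i κ, IsAlgebraic ℚ ((F i).coeff κ))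
  (h0 : ∀ x : Fin 2 → ℂ, (∀ i, eval x (F i) = 0) → x = 0)

include hF halg h0 in
theorem etale_fib (hd : 2 ≤ d) (R : κ → MvPolynomial (Fin 2 ⊕ κ) ℂ)
    (z : Fin 2 → ℂ) (hz : Alg z) (m : ℕ) (hm : 0 < m)
    (hper : Par ((pt F)^[m] z) z) (hcrit : ∀ n, (jac F ((pt F)^[n] z)).det ≠ 0)
    (k : ℕ) (D : ℕ → Set (MvPolynomial (Fin 2 ⊕ κ) ℂ))
    (hD0 : ∀ (n : ℕ) (v : Fin 2 ⊕ κ → ℂ), cross (v ∘ Sum.inl) ((pt F)^[n] z) = 0 →
      ∀ g ∈ D 0, eval v g = 0)
    (hDinv : ∀ i, i ≤ k → ∀ v : Fin 2 ⊕ κ → ℂ, (∀ g ∈ D i, eval v g = 0) →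
      ∀ g ∈ D i, eval (pt (fibered F R) v) g = 0)
    (hDcrit : ∀ i < k, ∃ l : ℕ, ∀ v : Fin 2 ⊕ κ → ℂ, (∀ g ∈ D i, eval v g = 0) →
      (jac (fibered F R) v).det = 0 → ∀ g ∈ D (i + 1), eval ((pt (fibered F R))^[l] v) g = 0)
    (hDend : ∀ v : Fin 2 ⊕ κ → ℂ, (∀ g ∈ D k, eval v g = 0) → ∀ j : Fin 2, v (Sum.inl j) = 0)
    (a : Fin 2 ⊕ κ → ℂ) (hx : a ∘ Sum.inl ≠ 0)
    (hpre : ¬ ∃ n m : ℕ, n ≠ m ∧ Par ((pt F)^[n] (a ∘ Sum.inl)) ((pt F)^[m] (a ∘ Sum.inl)))
    (s : Finset ℂ) :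
    ∃ (p : ℕ) (_ : Fact p.Prime) (τ : ℂ →+* PadicAlgCl p), (∀ y ∈ s, ‖τ y‖ ≤ 1) ∧
      Etale τ (fibered F R) a := by
  classical
  set f := fibered F R with hf
  set x : Fin 2 → ℂ := a ∘ Sum.inl with hxdef
  obtain ⟨sR, E, hE, hrel⟩ := rel_cert f Sum.inl k D hDinv hDcrit hDend
  obtain ⟨sF, hsF⟩ := endo_cert F h0
  -- the equations of the fibres
  let P : ℕ → MvPolynomial (Fin 2 ⊕ κ) ℂ := fun i =>
    X (Sum.inl 0) * C ((pt F)^[i] z 1) - X (Sum.inl 1) * C ((pt F)^[i] z 0)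
  have hPev : ∀ i (v : Fin 2 ⊕ κ → ℂ), eval v (P i) = cross (v ∘ Sum.inl) ((pt F)^[i] z) := by
    intro i v
    simp only [P, map_sub, map_mul, eval_X, eval_C, cross, Function.comp]
  have hcert : ∀ i, ∃ s : Finset ℂ, ∀ (R : Subring ℂ), (s : Set ℂ) ⊆ R →
      (∀ Q ∈ ({P i} : Finset (MvPolynomial (Fin 2 ⊕ κ) ℂ)), Int R Q) → (∀ g ∈ E, Int R g) →
      ∀ (k : Type) [Field k] (ρ : R →+* k) (z : Fin 2 ⊕ κ → k),
        (∀ Q ∈ ({P i} : Finset (MvPolynomial (Fin 2 ⊕ κ) ℂ)), ev ρ z Q = 0) →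
        ∀ g ∈ E, ev ρ z g = 0 := by
    intro i
    apply cert_finset
    intro v hv g hg
    refine hD0 i v ?_ g (hE hg)
    rw [← hPev]
    exact hv _ (Finset.mem_singleton_self _)
  choose sC hsC using hcert
  obtain ⟨cE, hcE⟩ := coeffs_finset E
  obtain ⟨cf, hcf⟩ := coeffs_finset (Finset.univ.image f)
  obtain ⟨cF, hcF⟩ := coeffs_finset (Finset.univ.image F)
  obtain ⟨i, hi⟩ := Function.ne_iff.1 hx
  rw [Pi.zero_apply] at hi
  obtain ⟨j, hj⟩ := Function.ne_iff.1 hz.1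
  rw [Pi.zero_apply] at hj
  obtain ⟨p, hp, τ, hτ, n, hn⟩ := meets F hF halg h0 hd z hz m hm hper hcrit x hx hpre
    (s ∪ sR ∪ sF ∪ (Finset.range m).biUnion sC ∪ cE ∪ cf ∪ cF ∪ Finset.univ.image a ∪ {(x i)⁻¹} ∪
      Finset.univ.image z ∪ {(z j)⁻¹})
  refine ⟨p, hp, τ, fun y hy => hτ y (by simp [hy]), ?_⟩
  have hsub : ∀ {u : Finset ℂ}, (∀ y ∈ u, ‖τ y‖ ≤ 1) → (u : Set ℂ) ⊆ intR τ := by
    intro u hu y hy
    exact hu y hy
  -- integrality
  have hfI : ∀ j, Int (intR τ) (f j) := fun j =>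
    hcf (intR τ) (hsub fun y hy => hτ y (by simp [hy])) _
      (Finset.mem_image_of_mem _ (Finset.mem_univ j))
  have hFI : ∀ j, Int (intR τ) (F j) := fun j =>
    hcF (intR τ) (hsub fun y hy => hτ y (by simp [hy])) _
      (Finset.mem_image_of_mem _ (Finset.mem_univ j))
  have hEI : ∀ g ∈ E, Int (intR τ) g := hcE (intR τ) (hsub fun y hy => hτ y (by simp [hy]))
  choose fR hfR using hfI
  choose FR hFR using hFI
  have hfR' : (fun j => map (intR τ).subtype (fR j)) = f := _root_.funext hfR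
  have hFR' : (fun j => map (intR τ).subtype (FR j)) = F := _root_.funext hFR
  have haI : ∀ j, a j ∈ intR τ := fun j => hτ _ (by simp)
  have hzI : ∀ j, z j ∈ intR τ := fun j => hτ _ (by simp)
  let aR : Fin 2 ⊕ κ → intR τ := fun j => ⟨a j, haI j⟩
  let zR : Fin 2 → intR τ := fun j => ⟨z j, hzI j⟩
  have hunit : ∀ (u : intR τ), (u : ℂ) ≠ 0 → ‖τ (u : ℂ)⁻¹‖ ≤ 1 → rd τ u ≠ 0 := by
    intro u hu hu' h
    rw [rd_eq_zero, norm_eq_one_of τ hu u.2 hu'] at h
    exact lt_irrefl _ h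
  -- the orbits over the ring
  have haR : ∀ n j, (((pt fR)^[n] aR j : intR τ) : ℂ) = (pt f)^[n] a j := by
    intro n j
    have e1 := pt_map (intR τ).subtype fR aR n
    rw [hfR'] at e1
    exact (congrFun e1 j).symm
  have hzR : ∀ n j, (((pt FR)^[n] zR j : intR τ) : ℂ) = (pt F)^[n] z j := by
    intro n j
    have e1 := pt_map (intR τ).subtype FR zR n
    rw [hFR'] at e1
    exact (congrFun e1 j).symm
  have hbase : ∀ n j, (pt fR)^[n] aR (Sum.inl j) = (pt FR)^[n] (fun j => aR (Sum.inl j)) j := by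
    intro n j
    apply Subtype.ext
    rw [haR]
    have e1 := pt_map (intR τ).subtype FR (fun j => aR (Sum.inl j)) n
    rw [hFR'] at e1
    have e2 : (((pt FR)^[n] (fun j => aR (Sum.inl j)) j : intR τ) : ℂ) =
        (pt F)^[n] (a ∘ Sum.inl) j := (congrFun e1 j).symm
    rw [e2, ← fibered_base F R a n]
    rfl
  -- reductions
  let Fb : Fin 2 → MvPolynomial (Fin 2) (ResF (PadicAlgCl p)) := fun j => map (rd τ) (FR j)
  have hFb : ∀ j, (Fb j).IsHomogeneous d := fun j =>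
    (homog_lift (FR j) (by rw [hFR]; exact hF j)).map _
  have hFbne : ∀ v : Fin 2 → ResF (PadicAlgCl p), v ≠ 0 → ∀ n, (pt Fb)^[n] v ≠ 0 := by
    have h1 := hsF (intR τ) (hsub fun y hy => hτ y (by simp [hy])) FR hFR
      (ResF (PadicAlgCl p)) (rd τ)
    intro v hv n
    induction n with
    | zero => exact hv
    | succ n ih =>
      rw [Function.iterate_succ_apply']
      exact fun h => ih (h1 _ fun j => congrFun h j)
  let xb : Fin 2 → ResF (PadicAlgCl p) := fun j => rd τ (aR (Sum.inl j))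
  let zb : Fin 2 → ResF (PadicAlgCl p) := fun j => rd τ (zR j)
  have hxbn : ∀ n j, (pt Fb)^[n] xb j = rd τ ((pt fR)^[n] aR (Sum.inl j)) := by
    intro n j
    rw [hbase]
    exact congrFun (pt_map (rd τ) FR (fun j => aR (Sum.inl j)) n) j
  have hzbn : ∀ n j, (pt Fb)^[n] zb j = rd τ ((pt FR)^[n] zR j) := by
    intro n j
    exact congrFun (pt_map (rd τ) FR zR n) j
  have hxb : xb ≠ 0 := by
    intro h
    have h1 := congrFun h i
    have h2 : ‖τ (x i)⁻¹‖ ≤ 1 := hτ _ (by simp)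
    exact hunit (aR (Sum.inl i)) hi h2 h1
  have hzb : zb ≠ 0 := by
    intro h
    have h1 := congrFun h j
    have h2 : ‖τ (z j)⁻¹‖ ≤ 1 := hτ _ (by simp)
    exact hunit (zR j) hj h2 h1
  -- the orbit meets the point
  have hpar : Par ((pt Fb)^[n] xb) zb := by
    have hne := hFbne xb hxb n
    have hc : (pt Fb)^[n] xb 0 * zb 1 - (pt Fb)^[n] xb 1 * zb 0 = 0 := by
      rw [hxbn, hxbn, ← map_mul, ← map_mul, ← map_sub, rd_eq_zero]
      have e1 : (((pt fR)^[n] aR (Sum.inl 0) * zR 1 - (pt fR)^[n] aR (Sum.inl 1) * zR 0 :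
          intR τ) : ℂ) = cross ((pt F)^[n] x) z := by
        have e2 : (((pt fR)^[n] aR (Sum.inl 0) * zR 1 - (pt fR)^[n] aR (Sum.inl 1) * zR 0 :
          intR τ) : ℂ) = ((pt fR)^[n] aR (Sum.inl 0) : intR τ) * z 1 -
            ((pt fR)^[n] aR (Sum.inl 1) : intR τ) * z 0 := rfl
        rw [e2, haR, haR]
        have e3 := fibered_base F R a n
        have e4 : (pt f)^[n] a (Sum.inl 0) = (pt F)^[n] x 0 := congrFun e3 0
        have e5 : (pt f)^[n] a (Sum.inl 1) = (pt F)^[n] x 1 := congrFun e3 1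
        rw [e4, e5]
        rfl
      rw [e1]
      exact hn
    by_cases hz0 : zb 0 = 0
    · have hz1 : zb 1 ≠ 0 := by
        intro h
        apply hzb
        funext l
        fin_cases l
        · exact hz0
        · exact h
      have hx0 : (pt Fb)^[n] xb 0 = 0 := by
        rw [hz0, mul_zero, sub_zero] at hc
        exact (mul_eq_zero.1 hc).resolve_right hz1
      have hx1 : (pt Fb)^[n] xb 1 ≠ 0 := by
        intro h
        apply hne
        funext l
        fin_cases l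
        · exact hx0
        · exact h
      refine ⟨(pt Fb)^[n] xb 1 / zb 1, div_ne_zero hx1 hz1, ?_⟩
      funext l
      fin_cases l
      · simp only [Fin.zero_eta, Pi.smul_apply, smul_eq_mul]
        rw [hx0, hz0, mul_zero]
      · simp only [Fin.mk_one, Pi.smul_apply, smul_eq_mul]
        rw [div_mul_cancel₀ _ hz1]
    · have hx0 : (pt Fb)^[n] xb 0 ≠ 0 := by
        intro h
        apply hne
        rw [h, zero_mul, zero_sub, neg_eq_zero] at hc
        funext l
        fin_cases l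
        · exact h
        · exact (mul_eq_zero.1 hc).resolve_right hz0
      refine ⟨(pt Fb)^[n] xb 0 / zb 0, div_ne_zero hx0 hz0, ?_⟩
      funext l
      fin_cases l
      · simp only [Fin.zero_eta, Pi.smul_apply, smul_eq_mul]
        rw [div_mul_cancel₀ _ hz0]
      · simp only [Fin.mk_one, Pi.smul_apply, smul_eq_mul]
        field_simp
        linear_combination -hc
  -- the period
  have hmul : ∀ t, Par ((pt F)^[m * t] z) z := by
    intro t
    induction t with
    | zero => exact Par.refl _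
    | succ t ih =>
      have e : m * (t + 1) = m * t + m := by ring
      rw [e, Function.iterate_add_apply]
      exact (hper.iter hF _).trans ih
  have hmod : ∀ l, cross ((pt F)^[l] z) ((pt F)^[l % m] z) = 0 := by
    intro l
    have e : l = l % m + m * (l / m) := (Nat.mod_add_div l m).symm
    have h1 : Par ((pt F)^[l % m + m * (l / m)] z) ((pt F)^[l % m] z) := by
      rw [Function.iterate_add_apply]
      exact (hmul _).iter hF _
    rw [← e] at h1
    exact cross_par h1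
  -- the points of the orbit lie in the first member of the chain
  have hin : ∀ l, ∀ g ∈ E, ev (rd τ) (fun i => rd τ ((pt fR)^[n + l] aR i)) g = 0 := by
    intro l
    have hlm : l % m < m := Nat.mod_lt l hm
    have hPI : Int (intR τ) (P (l % m)) := by
      refine ⟨X (Sum.inl 0) * C ((pt FR)^[l % m] zR 1) - X (Sum.inl 1) *
        C ((pt FR)^[l % m] zR 0), ?_⟩
      simp only [map_sub, map_mul, map_X, map_C, P]
      rw [← hzR, ← hzR]
      rfl
    refine hsC (l % m) (intR τ) (hsub fun y hy => hτ y ?_) ?_ hEI _ _ _ ?_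
    · have : y ∈ (Finset.range m).biUnion sC :=
        Finset.mem_biUnion.2 ⟨l % m, Finset.mem_range.2 hlm, hy⟩
      simp only [Finset.mem_union]
      tauto
    · intro Q hQ
      rw [Finset.mem_singleton.1 hQ]
      exact hPI
    · intro Q hQ
      rw [Finset.mem_singleton.1 hQ]
      have hPQ : P (l % m) = map (intR τ).subtype (X (Sum.inl 0) * C ((pt FR)^[l % m] zR 1) -
          X (Sum.inl 1) * C ((pt FR)^[l % m] zR 0)) := by
        simp only [map_sub, map_mul, map_X, map_C, P]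
        rw [← hzR, ← hzR]
        rfl
      rw [hPQ, ev_map, eval₂_sub, eval₂_mul, eval₂_mul, eval₂_X, eval₂_X, eval₂_C, eval₂_C,
        ← hxbn, ← hxbn]
      have h1 := hpar.iter hFb l
      rw [← Function.iterate_add_apply, Nat.add_comm] at h1
      obtain ⟨δ, -, h2⟩ := h1
      have h3 := hmod l
      have h4 : (pt Fb)^[l] zb 0 * rd τ ((pt FR)^[l % m] zR 1) -
          (pt Fb)^[l] zb 1 * rd τ ((pt FR)^[l % m] zR 0) = 0 := by
        rw [hzbn, hzbn, ← map_mul, ← map_mul, ← map_sub, rd_eq_zero]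
        have e1 : (((pt FR)^[l] zR 0 * (pt FR)^[l % m] zR 1 - (pt FR)^[l] zR 1 *
            (pt FR)^[l % m] zR 0 : intR τ) : ℂ) = 0 := by
          have e2 : (((pt FR)^[l] zR 0 * (pt FR)^[l % m] zR 1 - (pt FR)^[l] zR 1 *
            (pt FR)^[l % m] zR 0 : intR τ) : ℂ) = ((pt FR)^[l] zR 0 : intR τ) *
              ((pt FR)^[l % m] zR 1 : intR τ) - ((pt FR)^[l] zR 1 : intR τ) *
              ((pt FR)^[l % m] zR 0 : intR τ) := rfl
          rw [e2, hzR, hzR, hzR, hzR]
          exact h3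
        rw [e1, map_zero, norm_zero]
        exact one_pos
      rw [h2]
      simp only [Pi.smul_apply, smul_eq_mul]
      linear_combination δ * h4
  -- conclusion
  obtain ⟨M, q, hq, hperiod⟩ := res_periodic τ fR aR
  have hfinal := etale_of_res τ fR aR (M + n) (fun N hN => by
    obtain ⟨l, rfl⟩ := Nat.exists_eq_add_of_le (show n ≤ N by omega)
    have e1 := pt_map (rd τ) fR aR (n + l)
    rw [e1]
    intro hdet
    have h1 := hrel (intR τ) (hsub fun y hy => hτ y (by simp [hy])) fR hfR _ (rd τ)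
      (fun i => rd τ ((pt fR)^[n + l] aR i)) (hin l) q hq (hperiod _ (by omega)) hdet
    apply hFbne xb hxb (n + l)
    funext j
    rw [hxbn]
    exact h1 j)
  rw [hfR'] at hfinal
  exact hfinal

end

end Pool.Agent.L5helper26.PN
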