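import Pool.Agent.L5helper26.PN.Plane

set_option autoImplicit false

/-! The Dynamical Mordell-Lang property for endomorphisms of the projective plane which preserve a
pencil of lines and are strictly critically finite on the lines over a cycle of the pencil. -/

namespace Pool.Agent.L5helper26.PN

open MvPolynomial Pool.Agent.H936R2 Pool.Agent.R847.QP Pool.Agent.R847.Gap Pool.Agent.R847.PC
open Pool.Agent.Y199.DM Pool.Agent.L5helper26.DM

theorem jac_fibered (F : Fin 2 → MvPolynomial (Fin 2) ℂ) (R : Unit → MvPolynomial (Fin 2 ⊕ Unit) ℂ)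
    (v : Fin 2 ⊕ Unit → ℂ) : (jac (fibered F R) v).det =
      (jac F (v ∘ Sum.inl)).det * eval v (pderiv (Sum.inr ()) (R ())) := by
  have h : jac (fibered F R) v = Matrix.fromBlocks (jac F (v ∘ Sum.inl)) 0
      (Matrix.of fun (i : Unit) (j : Fin 2) => eval v (pderiv (Sum.inl j) (R i)))
      (Matrix.of fun (i : Unit) (j : Unit) => eval v (pderiv (Sum.inr j) (R i))) := by
    ext i j
    rcases i with i | i <;> rcases j with j | j
    · change eval v (pderiv (Sum.inl j) (rename Sum.inl (F i))) =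
        eval (v ∘ Sum.inl) (pderiv j (F i))
      rw [pderiv_rename Sum.inl_injective, eval_rename]
    · change eval v (pderiv (Sum.inr j) (rename Sum.inl (F i))) = 0
      rw [pderiv_eq_zero_of_notMem_vars, map_zero]
      intro hmem
      obtain ⟨l, -, hl⟩ := Finset.mem_image.1 (vars_rename _ _ hmem)
      cases hl
    · rfl
    · rfl
  rw [h, Matrix.det_fromBlocks_zero₁₂, Matrix.det_unique (Matrix.of _)]
  rfl

theorem derivative_onLine (u : Fin 2 → ℂ) (g : MvPolynomial (Fin 2 ⊕ Unit) ℂ) :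
    (onLine u g).derivative = onLine u (pderiv (Sum.inr ()) g) := by
  induction g using MvPolynomial.induction_on with
  | C a =>
    simp [onLine]
  | add p q hp hq =>
    have e1 : onLine u (p + q) = onLine u p + onLine u q := map_add _ _ _
    rw [e1, Polynomial.derivative_add, hp, hq, map_add]
    exact (map_add _ _ _).symm
  | mul_X p i hp =>
    have e1 : onLine u (p * X i) = onLine u p * onLine u (X i) := map_mul _ _ _
    have e2 : onLine u (pderiv (Sum.inr ()) (p * X i)) =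
        onLine u (pderiv (Sum.inr ()) p) * onLine u (X i) +
          onLine u p * onLine u (pderiv (Sum.inr ()) (X i)) := by
      rw [Derivation.leibniz, smul_eq_mul, smul_eq_mul]
      have e3 : onLine u (p * (pderiv (Sum.inr ())) (X i) + X i * (pderiv (Sum.inr ())) p) =
        onLine u (p * (pderiv (Sum.inr ())) (X i)) + onLine u (X i * (pderiv (Sum.inr ())) p) :=
        map_add _ _ _
      have e4 : onLine u (p * (pderiv (Sum.inr ())) (X i)) = onLine u p *
        onLine u ((pderiv (Sum.inr ())) (X i)) := map_mul _ _ _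
      have e5 : onLine u (X i * (pderiv (Sum.inr ())) p) = onLine u (X i) *
        onLine u ((pderiv (Sum.inr ())) p) := map_mul _ _ _
      rw [e3, e4, e5]
      ring
    have e3 : (onLine u (X i)).derivative = onLine u (pderiv (Sum.inr ()) (X i)) := by
      rcases i with i | i
      · rw [pderiv_X_of_ne (by simp)]
        simp [onLine]
      · have h1 : onLine u (X (Sum.inr i)) = Polynomial.X := by simp [onLine]
        have h2 : onLine u 1 = 1 := map_one _
        have h3 : pderiv (Sum.inr ()) (X (Sum.inr i) : MvPolynomial (Fin 2 ⊕ Unit) ℂ) = 1 :=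
          pderiv_X_self (R := ℂ) (Sum.inr ())
        rw [h1, h3, h2, Polynomial.derivative_X]
    rw [e1, e2, Polynomial.derivative_mul, hp, e3]

/-- A polynomial which vanishes on a line of the cone but not at another point. -/
theorem exists_sep (q v : Fin 2 ⊕ Unit → ℂ) (hq : q ∘ Sum.inl ≠ 0) (hv : v ∘ Sum.inl ≠ 0)
    (h : ∀ t : ℂ, v ≠ t • q) : ∃ g : MvPolynomial (Fin 2 ⊕ Unit) ℂ,
      (∀ t : ℂ, eval (t • q) g = 0) ∧ eval v g ≠ 0 := by
  by_cases hc : cross (v ∘ Sum.inl) (q ∘ Sum.inl) = 0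
  · obtain ⟨δ, hδ, h1⟩ := par_cross hv hq hc
    obtain ⟨i, hi⟩ := Function.ne_iff.1 hq
    have hi' : q (Sum.inl i) ≠ 0 := hi
    refine ⟨X (Sum.inr ()) * C (q (Sum.inl i)) - X (Sum.inl i) * C (q (Sum.inr ())),
      fun t => ?_, fun h2 => ?_⟩
    · simp only [map_sub, map_mul, eval_X, eval_C, Pi.smul_apply, smul_eq_mul]
      ring
    · simp only [map_sub, map_mul, eval_X, eval_C] at h2
      have h3 : v (Sum.inl i) = δ * q (Sum.inl i) := congrFun h1 i
      have h4 : (v (Sum.inr ()) - δ * q (Sum.inr ())) * q (Sum.inl i) = 0 := by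
        rw [h3] at h2
        linear_combination h2
      have h5 := (mul_eq_zero.1 h4).resolve_right hi'
      apply h δ
      funext j
      rcases j with j | j
      · exact congrFun h1 j
      · change v (Sum.inr ()) = δ * q (Sum.inr ())
        linear_combination h5
  · refine ⟨X (Sum.inl 0) * C (q (Sum.inl 1)) - X (Sum.inl 1) * C (q (Sum.inl 0)),
      fun t => ?_, ?_⟩
    · simp only [map_sub, map_mul, eval_X, eval_C, Pi.smul_apply, smul_eq_mul]
      ring
    · simp only [map_sub, map_mul, eval_X, eval_C]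
      exact hc

section

variable {d : ℕ} (F : Fin 2 → MvPolynomial (Fin 2) ℂ) (hF : ∀ i, (F i).IsHomogeneous d)
  (halg : ∀ i κ, IsAlgebraic ℚ ((F i).coeff κ))
  (h0 : ∀ x : Fin 2 → ℂ, (∀ i, eval x (F i) = 0) → x = 0)
  (R : Unit → MvPolynomial (Fin 2 ⊕ Unit) ℂ) (hR : ∀ j, (R j).IsHomogeneous d)
  (hR0 : eval cen (R ()) ≠ 0)

include hR hR0 in
theorem onLine_deriv_ne (hd : 1 ≤ d) (u : Fin 2 → ℂ) :
    onLine u (pderiv (Sum.inr ()) (R ())) ≠ 0 := by
  intro h
  rw [← derivative_onLine] at h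
  have h1 := Polynomial.derivative_eq_zero.1 h
  obtain ⟨c, hc⟩ := Polynomial.natDegree_eq_zero.1 h1
  have h2 : ∀ w, eval (Sum.elim u fun _ => w) (R ()) = c := by
    intro w
    rw [← eval_onLine, ← hc, Polynomial.eval_C]
  -- the other line
  let H : Polynomial ℂ := aeval (Sum.elim (fun i => Polynomial.C (u i) * Polynomial.X)
    fun _ => 1) (R ())
  have hH : ∀ s, H.eval s = eval (Sum.elim (s • u) fun _ => 1) (R ()) := by
    intro s
    have e1 : H.eval s = (Polynomial.evalRingHom s).comp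
      (aeval (R := ℂ) (Sum.elim (fun i => Polynomial.C (u i) * Polynomial.X) fun _ => 1) :
        MvPolynomial (Fin 2 ⊕ Unit) ℂ →ₐ[ℂ] Polynomial ℂ).toRingHom (R ()) := rfl
    rw [e1]
    have e2 : (Polynomial.evalRingHom s).comp
      (aeval (R := ℂ) (Sum.elim (fun i => Polynomial.C (u i) * Polynomial.X) fun _ => 1) :
        MvPolynomial (Fin 2 ⊕ Unit) ℂ →ₐ[ℂ] Polynomial ℂ).toRingHom =
      eval (Sum.elim (s • u) fun _ => 1) := by
      apply MvPolynomial.ringHom_ext
      · intro c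
        simp
      · rintro (i | i)
        · rw [eval_X]
          change Polynomial.eval s (aeval (Sum.elim (fun i => Polynomial.C (u i) * Polynomial.X)
            fun _ => 1) (X (Sum.inl i))) = s * u i
          rw [aeval_X, Sum.elim_inl, Polynomial.eval_mul, Polynomial.eval_C, Polynomial.eval_X]
          ring
        · simp
    rw [e2]
  have h3 : H = Polynomial.C c * Polynomial.X ^ d := by
    have h4 : H - Polynomial.C c * Polynomial.X ^ d = 0 := by
      refine Polynomial.eq_zero_of_infinite_isRoot _ ?_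
      refine Set.Infinite.mono (s := {s : ℂ | s ≠ 0}) ?_ ?_
      · intro s hs
        have hs' : s ≠ 0 := hs
        change (H - Polynomial.C c * Polynomial.X ^ d).eval s = 0
        rw [Polynomial.eval_sub, hH, Polynomial.eval_mul, Polynomial.eval_C, Polynomial.eval_pow,
          Polynomial.eval_X]
        have h5 := eval_scale (R ()) d (hR ()) s (Sum.elim u fun _ => s⁻¹)
        have h6 : (fun i => s * (Sum.elim u fun _ => s⁻¹ : Fin 2 ⊕ Unit → ℂ) i) =
            Sum.elim (s • u) fun _ => 1 := by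
          funext i
          rcases i with i | i
          · rfl
          · change s * s⁻¹ = 1
            exact mul_inv_cancel₀ hs'
        rw [h6, h2] at h5
        rw [h5]
        ring
      · exact (Set.finite_singleton (0 : ℂ)).infinite_compl
    linear_combination h4
  have h4 := hH 0
  rw [h3, Polynomial.eval_mul, Polynomial.eval_pow, Polynomial.eval_X, zero_pow (by omega),
    mul_zero, zero_smul] at h4
  exact hR0 h4.symm

include hF halg h0 hR hR0 in
theorem plane_full (hd : 2 ≤ d) (z : Fin 2 → ℂ) (hz : Alg z) (m : ℕ) (hm : 0 < m)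
    (hper : Par ((pt F)^[m] z) z) (hcrit : ∀ n, (jac F ((pt F)^[n] z)).det ≠ 0)
    (hfib : ∀ (n : ℕ) (v : Fin 2 ⊕ Unit → ℂ), v ∘ Sum.inl ≠ 0 →
      cross (v ∘ Sum.inl) ((pt F)^[n] z) = 0 → (jac (fibered F R) v).det = 0 →
      ∃ n' m' : ℕ, n' < m' ∧ Par ((pt (fibered F R))^[n'] v) ((pt (fibered F R))^[m'] v) ∧
        ∀ l, n' ≤ l → (jac (fibered F R) ((pt (fibered F R))^[l] v)).det ≠ 0)
    (S : Set (MvPolynomial (Fin 2 ⊕ Unit) ℂ)) (hS : ∀ g ∈ S, ∃ e : ℕ, g.IsHomogeneous e)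
    (a : Fin 2 ⊕ Unit → ℂ) :
    Prog {n : ℕ | ∀ g ∈ S, eval ((pt (fibered F R))^[n] a) g = 0} := by
  classical
  by_cases hx : a ∘ Sum.inl = 0
  · exact centre F hF R hR hd a hx S
  by_cases hpre : ∃ n m : ℕ, n ≠ m ∧ Par ((pt F)^[n] (a ∘ Sum.inl)) ((pt F)^[m] (a ∘ Sum.inl))
  · obtain ⟨n, m, hlt, h⟩ : ∃ n m : ℕ, n < m ∧
        Par ((pt F)^[m] (a ∘ Sum.inl)) ((pt F)^[n] (a ∘ Sum.inl)) := by
      obtain ⟨n, m, hne, h⟩ := hpre
      rcases lt_or_gt_of_ne hne with h' | h'
      · exact ⟨n, m, h', h.symm⟩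
      · exact ⟨m, n, h', h⟩
    exact preper_base F hF h0 R hR hd a hx n m hlt h S hS
  have hf := fibered_hom F hF R hR
  set f := fibered F R with hfdef
  have hzn : ∀ n, (pt F)^[n] z ≠ 0 := fun n => (alg_iter F halg h0 hz n).1
  have hF0 : pt F 0 = 0 := pt_zero F (by omega) hF
  -- the period
  have hmul : ∀ t, Par ((pt F)^[m * t] z) z := by
    intro t
    induction t with
    | zero => exact Par.refl _
    | succ t ih =>
      have e : m * (t + 1) = m * t + m := by ring
      rw [e, Function.iterate_add_apply]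
      exact (hper.iter hF _).trans ih
  have hmod : ∀ l, Par ((pt F)^[l] z) ((pt F)^[l % m] z) := by
    intro l
    have e : l = l % m + m * (l / m) := (Nat.mod_add_div l m).symm
    have h1 : Par ((pt F)^[l % m + m * (l / m)] z) ((pt F)^[l % m] z) := by
      rw [Function.iterate_add_apply]
      exact (hmul _).iter hF _
    rw [← e] at h1
    exact h1
  -- the critical points over the cycle
  let rep : ℕ → ℂ → Fin 2 ⊕ Unit → ℂ := fun i w => Sum.elim ((pt F)^[i] z) fun _ => w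
  let rts : ℕ → Finset ℂ := fun i =>
    (onLine ((pt F)^[i] z) (pderiv (Sum.inr ()) (R ()))).roots.toFinset
  let I : Finset (Fin 2 ⊕ Unit → ℂ) := (Finset.range m).biUnion fun i => (rts i).image (rep i)
  have hrepjac : ∀ i w, (jac f (rep i w)).det =
      (jac F ((pt F)^[i] z)).det * (onLine ((pt F)^[i] z) (pderiv (Sum.inr ()) (R ()))).eval w := by
    intro i w
    rw [hfdef, jac_fibered, eval_onLine]
    rfl
  have hI : ∀ v ∈ I, v ∘ Sum.inl ≠ 0 ∧ ∃ n, cross (v ∘ Sum.inl) ((pt F)^[n] z) = 0 ∧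
      (jac f v).det = 0 := by
    intro v hv
    obtain ⟨i, -, hv⟩ := Finset.mem_biUnion.1 hv
    obtain ⟨w, hw, rfl⟩ := Finset.mem_image.1 hv
    refine ⟨hzn i, i, ?_, ?_⟩
    · exact cross_par (Par.refl _)
    · rw [hrepjac]
      have h1 := Multiset.mem_toFinset.1 hw
      rw [Polynomial.mem_roots (onLine_deriv_ne R hR hR0 (by omega) _), Polynomial.IsRoot.def] at h1
      rw [h1, mul_zero]
  have hcover : ∀ (n : ℕ) (v : Fin 2 ⊕ Unit → ℂ), v ∘ Sum.inl ≠ 0 →
      cross (v ∘ Sum.inl) ((pt F)^[n] z) = 0 → (jac f v).det = 0 → ∃ v' ∈ I, Par v v' := by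
    intro n v hv hc hj
    have h1 : Par (v ∘ Sum.inl) ((pt F)^[n % m] z) := (par_cross hv (hzn n) hc).trans (hmod n)
    obtain ⟨t, ht, h2⟩ := h1
    have h3 := vec_smul v _ t ht h2
    have h4 : Par v (rep (n % m) (v (Sum.inr ()) / t)) := ⟨t, ht, h3⟩
    refine ⟨_, Finset.mem_biUnion.2 ⟨n % m, Finset.mem_range.2 (Nat.mod_lt _ hm),
      Finset.mem_image.2 ⟨v (Sum.inr ()) / t, ?_, rfl⟩⟩, h4⟩
    rw [Multiset.mem_toFinset, Polynomial.mem_roots (onLine_deriv_ne R hR hR0 (by omega) _),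
      Polynomial.IsRoot.def]
    by_contra hne
    refine jac_par' hf h4 ?_ hj
    rw [hrepjac]
    exact mul_ne_zero (hcrit _) hne
  have hdata : ∀ v ∈ I, ∃ n' m' : ℕ, n' < m' ∧ Par ((pt f)^[n'] v) ((pt f)^[m'] v) ∧
      ∀ l, n' ≤ l → (jac f ((pt f)^[l] v)).det ≠ 0 := by
    intro v hv
    obtain ⟨h1, n, h2, h3⟩ := hI v hv
    exact hfib n v h1 h2 h3
  choose! N' M' hNM hNMpar hNMjac using hdata
  let Q : Finset (Fin 2 ⊕ Unit → ℂ) := I.biUnion fun v =>
    ((Finset.range (M' v)).filter fun l => N' v ≤ l).image fun l => (pt f)^[l] v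
  have hQ : ∀ q, q ∈ Q ↔ ∃ v ∈ I, ∃ l, N' v ≤ l ∧ l < M' v ∧ (pt f)^[l] v = q := by
    intro q
    simp only [Q, Finset.mem_biUnion, Finset.mem_image, Finset.mem_filter, Finset.mem_range]
    constructor
    · rintro ⟨v, hv, l, ⟨h1, h2⟩, h3⟩
      exact ⟨v, hv, l, h2, h1, h3⟩
    · rintro ⟨v, hv, l, h2, h1, h3⟩
      exact ⟨v, hv, l, ⟨h1, h2⟩, h3⟩
  have hQx : ∀ q ∈ Q, q ∘ Sum.inl ≠ 0 := by
    intro q hq
    obtain ⟨v, hv, l, -, -, rfl⟩ := (hQ q).1 hq
    rw [hfdef, fibered_base]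
    have h1 := (hI v hv).1
    clear hq
    induction l with
    | zero => exact h1
    | succ l ih =>
      rw [Function.iterate_succ_apply']
      exact pt_ne F h0 ih
  have hQjac : ∀ q ∈ Q, (jac f q).det ≠ 0 := by
    intro q hq
    obtain ⟨v, hv, l, h1, h2, rfl⟩ := (hQ q).1 hq
    exact hNMjac v hv l h1
  have hQstep : ∀ q ∈ Q, ∃ q' ∈ Q, Par (pt f q) q' := by
    intro q hq
    obtain ⟨v, hv, l, h1, h2, rfl⟩ := (hQ q).1 hq
    rcases Nat.lt_or_ge (l + 1) (M' v) with h3 | h3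
    · refine ⟨(pt f)^[l + 1] v, (hQ _).2 ⟨v, hv, l + 1, by omega, h3, rfl⟩, ?_⟩
      rw [Function.iterate_succ_apply']
      exact Par.refl _
    · have h4 : l.succ = M' v := by omega
      refine ⟨(pt f)^[N' v] v, (hQ _).2 ⟨v, hv, N' v, le_rfl, hNM v hv, rfl⟩, ?_⟩
      rw [← Function.iterate_succ_apply' (f := pt f), h4]
      exact (hNMpar v hv).symm
  -- the members of the chain
  let T : Set (Fin 2 ⊕ Unit → ℂ) := {v | v ∘ Sum.inl = 0 ∨ ∃ q ∈ Q, ∃ t : ℂ, v = t • q}
  have hTstep : ∀ v ∈ T, pt f v ∈ T := by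
    rintro v (h | ⟨q, hq, t, rfl⟩)
    · left
      rw [hfdef, fibered_base1, h, hF0]
    · right
      obtain ⟨q', hq', t', -, h2⟩ := hQstep q hq
      refine ⟨q', hq', t ^ d * t', ?_⟩
      have h3 := pt_smul' f hf t q 1
      simp only [Function.iterate_one, pow_one] at h3
      rw [h3, h2, smul_smul]
  have hTclosed : ∀ v, (∀ g ∈ {g : MvPolynomial (Fin 2 ⊕ Unit) ℂ | ∀ v ∈ T, eval v g = 0},
      eval v g = 0) → v ∈ T := by
    intro v hv
    by_contra hvT
    have hv1 : v ∘ Sum.inl ≠ 0 := fun h => hvT (Or.inl h)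
    have hv2 : ∀ q ∈ Q, ∀ t : ℂ, v ≠ t • q := fun q hq t h => hvT (Or.inr ⟨q, hq, t, h⟩)
    have hsep : ∀ q : Q, ∃ g : MvPolynomial (Fin 2 ⊕ Unit) ℂ,
        (∀ t : ℂ, eval (t • q.1) g = 0) ∧ eval v g ≠ 0 := fun q =>
      exists_sep q.1 v (hQx q.1 q.2) hv1 (hv2 q.1 q.2)
    choose g hg1 hg2 using hsep
    obtain ⟨j, hj⟩ := Function.ne_iff.1 hv1
    have hj' : v (Sum.inl j) ≠ 0 := hj
    have h1 := hv (X (Sum.inl j) * ∏ q : Q, g q) (by
      rintro w (h | ⟨q, hq, t, rfl⟩)
      · rw [map_mul, eval_X]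
        have : w (Sum.inl j) = 0 := congrFun h j
        rw [this, zero_mul]
      · rw [map_mul, map_prod, Finset.prod_eq_zero (Finset.mem_univ ⟨q, hq⟩) (hg1 ⟨q, hq⟩ t),
          mul_zero])
    rw [map_mul, eval_X, map_prod] at h1
    exact mul_ne_zero hj' (Finset.prod_ne_zero_iff.2 fun q _ => hg2 q) h1
  let P : ℕ → MvPolynomial (Fin 2 ⊕ Unit) ℂ := fun i =>
    X (Sum.inl 0) * C ((pt F)^[i] z 1) - X (Sum.inl 1) * C ((pt F)^[i] z 0)
  have hPev : ∀ i (v : Fin 2 ⊕ Unit → ℂ), eval v (P i) = cross (v ∘ Sum.inl) ((pt F)^[i] z) := by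
    intro i v
    simp only [P, map_sub, map_mul, eval_X, eval_C, cross, Function.comp]
  have hP0 : ∀ v : Fin 2 ⊕ Unit → ℂ, eval v (∏ i ∈ Finset.range m, P i) = 0 ↔
      ∃ i < m, cross (v ∘ Sum.inl) ((pt F)^[i] z) = 0 := by
    intro v
    rw [map_prod, Finset.prod_eq_zero_iff]
    constructor
    · rintro ⟨i, hi, h⟩
      exact ⟨i, Finset.mem_range.1 hi, by rw [← hPev, h]⟩
    · rintro ⟨i, hi, h⟩
      exact ⟨i, Finset.mem_range.2 hi, by rw [hPev, h]⟩
  have hcm : ∀ (n : ℕ) (v : Fin 2 ⊕ Unit → ℂ), cross (v ∘ Sum.inl) ((pt F)^[n] z) = 0 →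
      ∃ i < m, cross (v ∘ Sum.inl) ((pt F)^[i] z) = 0 := by
    intro n v h
    refine ⟨n % m, Nat.mod_lt _ hm, ?_⟩
    by_cases hv : v ∘ Sum.inl = 0
    · rw [hv]
      simp [cross]
    · exact cross_par ((par_cross hv (hzn n) h).trans (hmod n))
  let D : ℕ → Set (MvPolynomial (Fin 2 ⊕ Unit) ℂ) := fun i =>
    if i = 0 then {∏ i ∈ Finset.range m, P i}
    else if i = 1 then {g | ∀ v ∈ T, eval v g = 0} else {X (Sum.inl 0), X (Sum.inl 1)}
  have hDz : ∀ v : Fin 2 ⊕ Unit → ℂ, (∀ g ∈ D 0, eval v g = 0) ↔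
      ∃ i < m, cross (v ∘ Sum.inl) ((pt F)^[i] z) = 0 := by
    intro v
    rw [← hP0]
    constructor
    · intro h
      exact h _ (by simp [D])
    · intro h g hg
      simp only [D, if_true, Set.mem_singleton_iff] at hg
      rw [hg, h]
  have hD1 : ∀ v : Fin 2 ⊕ Unit → ℂ, (∀ g ∈ D 1, eval v g = 0) ↔ v ∈ T := by
    intro v
    have h1 : D 1 = {g | ∀ v ∈ T, eval v g = 0} := by simp [D]
    rw [h1]
    exact ⟨hTclosed v, fun h g hg => hg v h⟩
  have hD2 : ∀ v : Fin 2 ⊕ Unit → ℂ, (∀ g ∈ D 2, eval v g = 0) ↔ v ∘ Sum.inl = 0 := by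
    intro v
    have h1 : D 2 = {X (Sum.inl 0), X (Sum.inl 1)} := by simp [D]
    rw [h1]
    constructor
    · intro h
      funext j
      fin_cases j
      · have := h (X (Sum.inl 0)) (by simp)
        rwa [eval_X] at this
      · have := h (X (Sum.inl 1)) (by simp)
        rwa [eval_X] at this
    · intro h g hg
      rcases hg with rfl | hg
      · rw [eval_X]
        exact congrFun h 0
      · rw [Set.mem_singleton_iff] at hg
        rw [hg, eval_X]
        exact congrFun h 1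
  have hinv : ∀ i, i ≤ 2 → ∀ v : Fin 2 ⊕ Unit → ℂ, (∀ g ∈ D i, eval v g = 0) →
      ∀ g ∈ D i, eval (pt f v) g = 0 := by
    intro i hi v hv
    interval_cases i
    · rw [hDz] at hv ⊢
      obtain ⟨i, -, h⟩ := hv
      refine hcm (i + 1) _ ?_
      rw [hfdef, fibered_base1]
      by_cases hv : v ∘ Sum.inl = 0
      · rw [hv, hF0]
        simp [cross]
      · have h1 := (par_cross hv (hzn i) h).map hF
        rw [← Function.iterate_succ_apply' (f := pt F)] at h1
        exact cross_par h1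
    · rw [hD1] at hv ⊢
      exact hTstep v hv
    · rw [hD2] at hv ⊢
      rw [hfdef, fibered_base1, hv, hF0]
  have hTit : ∀ n, ∀ v ∈ T, (pt f)^[n] v ∈ T := by
    intro n v hv
    induction n with
    | zero => exact hv
    | succ n ih =>
      rw [Function.iterate_succ_apply']
      exact hTstep _ ih
  have hcr : ∀ i < 2, ∃ l : ℕ, ∀ v : Fin 2 ⊕ Unit → ℂ, (∀ g ∈ D i, eval v g = 0) →
      (jac f v).det = 0 → ∀ g ∈ D (i + 1), eval ((pt f)^[l] v) g = 0 := by
    intro i hi
    interval_cases i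
    · refine ⟨I.sup N', fun v hv hj => ?_⟩
      rw [hDz] at hv
      change ∀ g ∈ D 1, _
      rw [hD1]
      by_cases hv0 : v ∘ Sum.inl = 0
      · exact hTit _ v (Or.inl hv0)
      obtain ⟨i, -, hc⟩ := hv
      obtain ⟨v', hv', t, -, hvt⟩ := hcover i v hv0 hc hj
      have hle : N' v' ≤ I.sup N' := Finset.le_sup (f := N') hv'
      obtain ⟨e, he⟩ := Nat.exists_eq_add_of_le hle
      rw [he, Nat.add_comm, Function.iterate_add_apply]
      apply hTit
      right
      refine ⟨(pt f)^[N' v'] v', (hQ _).2 ⟨v', hv', N' v', le_rfl, hNM v' hv', rfl⟩,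
        t ^ d ^ N' v', ?_⟩
      rw [hvt, pt_smul' f hf]
    · refine ⟨0, fun v hv hj => ?_⟩
      rw [hD1] at hv
      change ∀ g ∈ D 2, _
      rw [hD2]
      rcases hv with h | ⟨q, hq, t, rfl⟩
      · exact h
      · by_cases ht : t = 0
        · rw [ht, zero_smul]
          rfl
        · exact absurd hj (jac_par' hf ⟨t, ht, rfl⟩ (hQjac q hq))
  have hend : ∀ v : Fin 2 ⊕ Unit → ℂ, (∀ g ∈ D 2, eval v g = 0) → ∀ j : Fin 2,
      v (Sum.inl j) = 0 := by
    intro v hv j
    rw [hD2] at hv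
    exact congrFun hv j
  obtain ⟨p, hp, τ, -, hE⟩ := etale_fib F hF halg h0 hd R z hz m hm hper hcrit 2 D
    (fun n v h => (hDz v).2 (hcm n v h)) hinv hcr hend a hx hpre ∅
  exact param_dml (Param.refl _ _) hE S

end

end Pool.Agent.L5helper26.PN
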