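import Pool.Agent.L5helper26.PN.Chain
import Pool.Agent.Y199.DM.NfT

set_option autoImplicit false

/-! Orbits of a rational function over the algebraic numbers meet a noncritical periodic point modulo
sufficiently many primes. -/

namespace Pool.Agent.L5helper26.PN

open MvPolynomial Pool.Agent.H936R2 Pool.Agent.R847.PC Pool.Agent.Y199.DM
open Pool.Agent.L5helper26.DM

section

variable {d : ℕ} (F : Fin 2 → MvPolynomial (Fin 2) ℂ) (hF : ∀ i, (F i).IsHomogeneous d)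
  (halg : ∀ i κ, IsAlgebraic ℚ ((F i).coeff κ))
  (h0 : ∀ x : Fin 2 → ℂ, (∀ i, eval x (F i) = 0) → x = 0)

include hF halg h0 in
/-- If modulo `p` the orbit of `x` meets the backward orbit of a point then it meets the point. -/
theorem near_cross (B : ℕ → Fin 2 → ℂ) (hB : ∀ k, Alg (B k))
    (hstep : ∀ k, Par (pt F (B (k + 1))) (B k))
    (x : Fin 2 → ℂ) (hx : x ≠ 0) :
    ∃ s₁ : Finset ℂ, ∀ K : ℕ, ∃ s₂ : Finset ℂ, (∀ y ∈ s₂, IsAlgebraic ℚ y) ∧
      ∀ (p : ℕ) [Fact p.Prime] (τ : ℂ →+* PadicAlgCl p), (∀ y ∈ s₁, ‖τ y‖ ≤ 1) →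
        (∀ y ∈ s₂, ‖τ y‖ ≤ 1) → ∀ n k, k ≤ K → B k 1 ≠ 0 → (pt F)^[n] x 1 ≠ 0 →
        ‖τ ((pt F)^[n] x 0 / (pt F)^[n] x 1 - B k 0 / B k 1)‖ < 1 →
          ‖τ (cross ((pt F)^[n + k] x) (B 0))‖ < 1 := by
  classical
  obtain ⟨s0, hs0⟩ := endo_cert F h0
  obtain ⟨c, hc⟩ := coeffs_finset (Finset.univ.image F)
  obtain ⟨i, hi⟩ := Function.ne_iff.1 hx
  rw [Pi.zero_apply] at hi
  choose δ hδ0 hδ using hstep
  have hptalg : ∀ v : Fin 2 → ℂ, (∀ i, IsAlgebraic ℚ (v i)) → ∀ i, IsAlgebraic ℚ (pt F v i) := by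
    intro v hv i
    have h1 : F i ∈ Set.range (map (σ := Fin 2) (algebraMap (algebraicClosure ℚ ℂ) ℂ)) := by
      rw [mem_range_map_iff_coeffs_subset]
      intro c hc
      rw [Finset.mem_coe, mem_coeffs_iff] at hc
      obtain ⟨κ, -, rfl⟩ := hc
      exact ⟨⟨(F i).coeff κ, mem_algebraicClosure_iff.2 (halg i κ)⟩, rfl⟩
    obtain ⟨P', hP'⟩ := h1
    let v' : Fin 2 → algebraicClosure ℚ ℂ := fun i => ⟨v i, mem_algebraicClosure_iff.2 (hv i)⟩
    have h2 : pt F v i = ((eval v' P' : algebraicClosure ℚ ℂ) : ℂ) := by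
      change eval v (F i) = _
      rw [← hP', eval_map]
      have h3 := eval₂_comp_left (algebraMap (algebraicClosure ℚ ℂ) ℂ) (RingHom.id _) v' P'
      rw [RingHom.comp_id] at h3
      exact h3.symm
    rw [h2]
    exact mem_algebraicClosure_iff.1 (Subtype.mem _)
  have hδalg : ∀ k, IsAlgebraic ℚ (δ k) := by
    intro k
    obtain ⟨j, hj⟩ := Function.ne_iff.1 (hB k).1
    rw [Pi.zero_apply] at hj
    have h1 := congrFun (hδ k) j
    rw [Pi.smul_apply, smul_eq_mul] at h1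
    have h2 : δ k = pt F (B (k + 1)) j * (B k j)⁻¹ := by
      rw [h1, mul_assoc, mul_inv_cancel₀ hj, mul_one]
    rw [h2]
    exact (hptalg _ (hB (k + 1)).2 j).mul ((hB k).2 j).inv
  refine ⟨s0 ∪ c ∪ Finset.univ.image x ∪ {(x i)⁻¹},
    fun K => ⟨((Finset.range (K + 1)).biUnion fun k => Finset.univ.image (B k)) ∪
      ((Finset.range (K + 1)).image fun k => (B k 1)⁻¹) ∪
      ((Finset.range (K + 1)).image δ) ∪ ((Finset.range (K + 1)).image fun k => (δ k)⁻¹) ∪
      (Finset.univ.image fun j => (B 0 j)⁻¹),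
      fun y hy => ?_, fun p hp τ hτ1 hτ2 n k hkK hBk hxn hnear => ?_⟩⟩
  · simp only [Finset.mem_union, Finset.mem_biUnion, Finset.mem_image, Finset.mem_univ,
      true_and] at hy
    rcases hy with (((⟨k, -, j, rfl⟩ | ⟨k, -, rfl⟩) | ⟨k, -, rfl⟩) | ⟨k, -, rfl⟩) | ⟨j, rfl⟩
    · exact (hB k).2 j
    · exact ((hB k).2 1).inv
    · exact hδalg k
    · exact (hδalg k).inv
    · exact ((hB 0).2 j).inv
  -- integrality
  have hFI : ∀ j, Int (intR τ) (F j) := fun j =>
    hc (intR τ) (fun z hz => hτ1 z (by simp [Finset.mem_coe.1 hz])) _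
      (Finset.mem_image_of_mem _ (Finset.mem_univ j))
  choose FR hFR using hFI
  have hFR' : (fun j => map (intR τ).subtype (FR j)) = F := _root_.funext hFR
  have hxI : ∀ j, x j ∈ intR τ := fun j => hτ1 _ (by simp)
  have hBI : ∀ l, l ≤ K → ∀ j, B l j ∈ intR τ := fun l hl j => hτ2 _ (by
    simp only [Finset.mem_union, Finset.mem_biUnion, Finset.mem_image, Finset.mem_univ, true_and,
      Finset.mem_range]
    exact Or.inl (Or.inl (Or.inl (Or.inl ⟨l, by omega, j, rfl⟩))))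
  have hB1I : ∀ l, l ≤ K → ‖τ (B l 1)⁻¹‖ ≤ 1 := fun l hl => hτ2 _ (by
    simp only [Finset.mem_union, Finset.mem_biUnion, Finset.mem_image, Finset.mem_univ, true_and,
      Finset.mem_range]
    exact Or.inl (Or.inl (Or.inl (Or.inr ⟨l, by omega, rfl⟩))))
  have hδI : ∀ l, l ≤ K → δ l ∈ intR τ := fun l hl => hτ2 _ (by
    simp only [Finset.mem_union, Finset.mem_biUnion, Finset.mem_image, Finset.mem_univ, true_and,
      Finset.mem_range]
    exact Or.inl (Or.inl (Or.inr ⟨l, by omega, rfl⟩)))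
  have hδI' : ∀ l, l ≤ K → ‖τ (δ l)⁻¹‖ ≤ 1 := fun l hl => hτ2 _ (by
    simp only [Finset.mem_union, Finset.mem_biUnion, Finset.mem_image, Finset.mem_univ, true_and,
      Finset.mem_range]
    exact Or.inl (Or.inr ⟨l, by omega, rfl⟩))
  -- units
  have hunit : ∀ (u : intR τ), (u : ℂ) ≠ 0 → ‖τ (u : ℂ)⁻¹‖ ≤ 1 → rd τ u ≠ 0 := by
    intro u hu hu' h
    rw [rd_eq_zero, norm_eq_one_of τ hu u.2 hu'] at h
    exact lt_irrefl _ h
  -- the reductions
  let Fb : Fin 2 → MvPolynomial (Fin 2) (ResF (PadicAlgCl p)) := fun j => map (rd τ) (FR j)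
  have hFb : ∀ j, (Fb j).IsHomogeneous d := fun j =>
    (homog_lift (FR j) (by rw [hFR]; exact hF j)).map _
  have hFbne : ∀ v : Fin 2 → ResF (PadicAlgCl p), v ≠ 0 → ∀ n, (pt Fb)^[n] v ≠ 0 := by
    have h1 := hs0 (intR τ) (fun z hz => hτ1 z (by simp [Finset.mem_coe.1 hz])) FR hFR
      (ResF (PadicAlgCl p)) (rd τ)
    intro v hv n
    induction n with
    | zero => exact hv
    | succ n ih =>
      rw [Function.iterate_succ_apply']
      exact fun h => ih (h1 _ fun j => congrFun h j)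
  -- relations between integral vectors reduce
  have hred : ∀ (v : Fin 2 → intR τ) (n : ℕ) (w : Fin 2 → intR τ) (u : intR τ),
      (pt F)^[n] (fun j => (v j : ℂ)) = (u : ℂ) • (fun j => (w j : ℂ)) →
      (pt Fb)^[n] (fun j => rd τ (v j)) = rd τ u • fun j => rd τ (w j) := by
    intro v n w u h
    have e1 := pt_map (intR τ).subtype FR v n
    rw [hFR'] at e1
    have e2 : (fun i => (intR τ).subtype (v i)) = fun j => (v j : ℂ) := rfl
    rw [e2, h] at e1
    have e3 := pt_map (rd τ) FR v n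
    change (pt Fb)^[n] _ = _ at e3
    rw [e3]
    funext j
    rw [Pi.smul_apply, smul_eq_mul, ← map_mul]
    congr 1
    apply Subtype.ext
    have e4 := congrFun e1 j
    exact e4.symm
  let Bb : ℕ → Fin 2 → ResF (PadicAlgCl p) := fun l j =>
    if h : B l j ∈ intR τ then rd τ ⟨B l j, h⟩ else 0
  have hBb : ∀ l (hl : l ≤ K), Bb l = fun j => rd τ ⟨B l j, hBI l hl j⟩ := by
    intro l hl
    funext j
    simp only [Bb]
    rw [dif_pos (hBI l hl j)]
  have hstepb : ∀ l, l + 1 ≤ K → Par (pt Fb (Bb (l + 1))) (Bb l) := by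
    intro l hl
    refine ⟨rd τ ⟨δ l, hδI l (by omega)⟩, hunit _ (hδ0 l) (hδI' l (by omega)), ?_⟩
    rw [hBb (l + 1) hl, hBb l (by omega)]
    exact hred (fun j => ⟨B (l + 1) j, hBI _ hl j⟩) 1 (fun j => ⟨B l j, hBI l (by omega) j⟩)
      ⟨δ l, hδI l (by omega)⟩ (hδ l)
  -- the orbit
  let xR : Fin 2 → intR τ := fun j => ⟨x j, hxI j⟩
  let xb : Fin 2 → ResF (PadicAlgCl p) := fun j => rd τ (xR j)
  have hxb : xb ≠ 0 := by
    intro h
    have h1 := congrFun h i
    have h2 : ‖τ (x i)⁻¹‖ ≤ 1 := hτ1 _ (by simp)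
    exact hunit (xR i) hi h2 h1
  have hitR : ∀ n j, (((pt FR)^[n] xR j : intR τ) : ℂ) = (pt F)^[n] x j := by
    intro n j
    have e1 := pt_map (intR τ).subtype FR xR n
    rw [hFR'] at e1
    exact (congrFun e1 j).symm
  have hitb : ∀ n j, (pt Fb)^[n] xb j = rd τ ((pt FR)^[n] xR j) := by
    intro n j
    exact congrFun (pt_map (rd τ) FR xR n) j
  -- the near point
  have hparn : Par ((pt Fb)^[n] xb) (Bb k) := by
    have hB1u : (⟨B k 1, hBI k hkK 1⟩ : intR τ).1 ≠ 0 := hBk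
    have hb : B k 0 / B k 1 ∈ intR τ := by
      rw [div_eq_mul_inv]
      exact (intR τ).mul_mem (hBI k hkK 0) (hB1I k hkK)
    have hu : (pt F)^[n] x 0 / (pt F)^[n] x 1 ∈ intR τ := by
      have e1 : (pt F)^[n] x 0 / (pt F)^[n] x 1 =
          ((pt F)^[n] x 0 / (pt F)^[n] x 1 - B k 0 / B k 1) + B k 0 / B k 1 := by ring
      rw [e1]
      exact (intR τ).add_mem hnear.le hb
    have e0 : rd τ ⟨_, hu⟩ = rd τ ⟨_, hb⟩ := by
      rw [← sub_eq_zero, ← map_sub, rd_eq_zero]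
      exact hnear
    have e1 : (pt FR)^[n] xR 0 = ⟨_, hu⟩ * (pt FR)^[n] xR 1 := by
      apply Subtype.ext
      change (((pt FR)^[n] xR 0 : intR τ) : ℂ) = _ * (((pt FR)^[n] xR 1 : intR τ) : ℂ)
      rw [hitR, hitR, div_mul_cancel₀ _ hxn]
    have e2 : (⟨B k 0, hBI k hkK 0⟩ : intR τ) = ⟨_, hb⟩ * ⟨B k 1, hBI k hkK 1⟩ := by
      apply Subtype.ext
      change B k 0 = _ * B k 1
      rw [div_mul_cancel₀ _ hBk]
    have hne := hFbne xb hxb n
    have h1ne : rd τ ((pt FR)^[n] xR 1) ≠ 0 := by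
      intro h
      apply hne
      funext j
      rw [hitb]
      fin_cases j
      · change rd τ ((pt FR)^[n] xR 0) = 0
        rw [e1, map_mul, h, mul_zero]
      · exact h
    have hBne : rd τ ⟨B k 1, hBI k hkK 1⟩ ≠ 0 := hunit _ hB1u (hB1I k hkK)
    refine ⟨rd τ ((pt FR)^[n] xR 1) * (rd τ ⟨B k 1, hBI k hkK 1⟩)⁻¹,
      mul_ne_zero h1ne (inv_ne_zero hBne), ?_⟩
    rw [hBb k hkK]
    funext j
    rw [hitb, Pi.smul_apply, smul_eq_mul]
    fin_cases j
    · change rd τ ((pt FR)^[n] xR 0) = _ * rd τ ⟨B k 0, hBI k hkK 0⟩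
      rw [e1, e2, map_mul, map_mul, e0]
      field_simp
    · change rd τ ((pt FR)^[n] xR 1) = _ * rd τ ⟨B k 1, hBI k hkK 1⟩
      rw [mul_assoc, inv_mul_cancel₀ hBne, mul_one]
  -- the rest of the orbit
  have hdown : ∀ l, l ≤ k → Par ((pt Fb)^[n + l] xb) (Bb (k - l)) := by
    intro l
    induction l with
    | zero => exact fun _ => hparn
    | succ l ih =>
      intro hl
      have h1 := (ih (by omega)).map hFb
      rw [← Function.iterate_succ_apply' (f := pt Fb)] at h1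
      have h2 := hstepb (k - (l + 1)) (by omega)
      have e : k - (l + 1) + 1 = k - l := by omega
      rw [e] at h2
      exact h1.trans h2
  have h1 := hdown k le_rfl
  rw [Nat.sub_self, hBb 0 (Nat.zero_le _)] at h1
  obtain ⟨δ', -, h2⟩ := h1
  have h3 : rd τ ((pt FR)^[n + k] xR 0 * ⟨B 0 1, hBI 0 (Nat.zero_le _) 1⟩ -
      (pt FR)^[n + k] xR 1 * ⟨B 0 0, hBI 0 (Nat.zero_le _) 0⟩) = 0 := by
    rw [map_sub, map_mul, map_mul, ← hitb, ← hitb, h2]
    simp only [Pi.smul_apply, smul_eq_mul]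
    ring
  rw [rd_eq_zero] at h3
  have h4 : (((pt FR)^[n + k] xR 0 * ⟨B 0 1, hBI 0 (Nat.zero_le _) 1⟩ -
      (pt FR)^[n + k] xR 1 * ⟨B 0 0, hBI 0 (Nat.zero_le _) 0⟩ : intR τ) : ℂ) =
      cross ((pt F)^[n + k] x) (B 0) := by
    have e1 : (((pt FR)^[n + k] xR 0 * ⟨B 0 1, hBI 0 (Nat.zero_le _) 1⟩ -
      (pt FR)^[n + k] xR 1 * ⟨B 0 0, hBI 0 (Nat.zero_le _) 0⟩ : intR τ) : ℂ) =
      ((pt FR)^[n + k] xR 0 : intR τ) * B 0 1 - ((pt FR)^[n + k] xR 1 : intR τ) * B 0 0 := rfl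
    rw [e1, hitR, hitR]
    rfl
  rw [h4] at h3
  exact h3

include hF halg h0 in
/-- An orbit which is not finite meets a periodic noncritical point modulo sufficiently many primes. -/
theorem meets (hd : 2 ≤ d) (z : Fin 2 → ℂ) (hz : Alg z) (m : ℕ) (hm : 0 < m)
    (hper : Par ((pt F)^[m] z) z) (hcrit : ∀ n, (jac F ((pt F)^[n] z)).det ≠ 0)
    (x : Fin 2 → ℂ) (hx : x ≠ 0)
    (hpre : ¬ ∃ n m : ℕ, n ≠ m ∧ Par ((pt F)^[n] x) ((pt F)^[m] x)) (s : Finset ℂ) :
    ∃ (p : ℕ) (_ : Fact p.Prime) (τ : ℂ →+* PadicAlgCl p), (∀ y ∈ s, ‖τ y‖ ≤ 1) ∧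
      ∃ n, ‖τ (cross ((pt F)^[n] x) z)‖ < 1 := by
  classical
  have hnpar : ∀ n m, n ≠ m → ¬ Par ((pt F)^[n] x) ((pt F)^[m] x) := fun n m hne h =>
    hpre ⟨n, m, hne, h⟩
  have hxne : ∀ n, (pt F)^[n] x ≠ 0 := by
    intro n
    induction n with
    | zero => exact hx
    | succ n ih =>
      rw [Function.iterate_succ_apply']
      exact pt_ne F h0 ih
  obtain ⟨B, hB, hB0, hstep, hBpar⟩ := exists_chain_per F hF halg h0 hd z hz m hm hper hcrit
  obtain ⟨hBinf, hBinj⟩ := infinite_ratio B (fun k => (hB k).1) hBpar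
  obtain ⟨s₁, hs₁⟩ := near_cross F hF halg h0 B hB hstep x hx
  by_cases hxalg : ∃ (c : ℂ) (u : Fin 2 → ℂ), Alg u ∧ x = c • u
  · obtain ⟨c, u, hu, hxu⟩ := hxalg
    -- the number field
    let C : Finset ℂ := (Finset.univ.biUnion fun i : Fin 2 =>
      (F i).support.image fun κ => (F i).coeff κ) ∪ Finset.univ.image u
    have hCalg : ∀ y ∈ C, IsAlgebraic ℚ y := by
      intro y hy
      simp only [C, Finset.mem_union, Finset.mem_biUnion, Finset.mem_image, Finset.mem_univ,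
        true_and] at hy
      rcases hy with ⟨i, κ, -, rfl⟩ | ⟨i, rfl⟩
      · exact halg i κ
      · exact hu.2 i
    let E : IntermediateField ℚ ℂ := IntermediateField.adjoin ℚ (C : Set ℂ)
    haveI hE : FiniteDimensional ℚ E := IntermediateField.finiteDimensional_adjoin
      (fun y hy => (hCalg y hy).isIntegral)
    have hCE : ∀ y ∈ C, y ∈ E := fun y hy => IntermediateField.subset_adjoin ℚ _ hy
    have hFE : ∀ i κ, (F i).coeff κ ∈ E := by
      intro i κ
      by_cases hκ : κ ∈ (F i).support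
      · refine hCE _ ?_
        simp only [C, Finset.mem_union, Finset.mem_biUnion, Finset.mem_image, Finset.mem_univ,
          true_and]
        exact Or.inl ⟨i, κ, hκ, rfl⟩
      · rw [notMem_support_iff.1 hκ]
        exact E.zero_mem
    have huE : ∀ n i, (pt F)^[n] u i ∈ E := by
      intro n
      induction n with
      | zero =>
        intro i
        refine hCE _ ?_
        simp only [C, Finset.mem_union, Finset.mem_image, Finset.mem_univ, true_and]
        exact Or.inr ⟨i, rfl⟩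
      | succ n ih =>
        intro i
        rw [Function.iterate_succ_apply']
        exact eval_mem_subring E.toSubring _ ih (F i) (fun κ => hFE i κ)
    have hxn : ∀ n i, (pt F)^[n] x i = c ^ d ^ n * (pt F)^[n] u i := by
      intro n i
      have h1 := iterate_scale F d hF c u n
      rw [hxu]
      exact congrFun h1 i
    obtain ⟨hxinf, hxinj⟩ := infinite_ratio (fun n => (pt F)^[n] x) hxne hnpar
    let T : Set ℂ := (fun n => (pt F)^[n] x 0 / (pt F)^[n] x 1) '' {n | (pt F)^[n] x 1 ≠ 0}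
    have hTinf : T.Infinite := hxinf.image hxinj
    have hTE : ∀ t ∈ T, t ∈ E := by
      rintro _ ⟨n, hn, rfl⟩
      have hn' : (pt F)^[n] x 1 ≠ 0 := hn
      rw [hxn] at hn'
      have hc : c ^ d ^ n ≠ 0 := left_ne_zero_of_mul hn'
      have h1 : (pt F)^[n] x 0 / (pt F)^[n] x 1 = (pt F)^[n] u 0 / (pt F)^[n] u 1 := by
        rw [hxn, hxn, mul_div_mul_left _ _ hc]
      change (pt F)^[n] x 0 / (pt F)^[n] x 1 ∈ E
      rw [h1]
      exact E.div_mem (huE n 0) (huE n 1)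
    -- three points
    let k : Fin 3 → ℕ := fun i => (hBinf.natEmbedding _ (i : ℕ) : {k | B k 1 ≠ 0}).1
    have hk1 : ∀ i, B (k i) 1 ≠ 0 := fun i => (hBinf.natEmbedding _ (i : ℕ)).2
    have hkinj : Function.Injective k := by
      intro i j hij
      have h1 := (hBinf.natEmbedding _).injective (Subtype.ext hij)
      exact Fin.ext h1
    obtain ⟨s₂, hs₂alg, hs₂⟩ := hs₁ (∑ i, k i)
    have hkK : ∀ i, k i ≤ ∑ i, k i := fun i =>
      Finset.single_le_sum (f := k) (fun _ _ => Nat.zero_le _) (Finset.mem_univ i)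
    let b : Fin 3 → Option ℂ := fun i => some (B (k i) 0 / B (k i) 1)
    have hb : Function.Injective b := by
      intro i j hij
      exact hkinj (hBinj (hk1 i) (hk1 j) (Option.some.inj hij))
    have hbalg : ∀ i, ∀ z ∈ b i, IsAlgebraic ℚ z := by
      intro i z hz
      have h1 : B (k i) 0 / B (k i) 1 = z := Option.some.inj hz
      rw [← h1, div_eq_mul_inv]
      exact ((hB _).2 0).mul ((hB _).2 1).inv
    have hfin := near_line E b hb hbalg (fun _ => s ∪ s₁ ∪ s₂) (fun _ => AlgEquiv.refl) 1 le_rfl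
    obtain ⟨t, htT, htn⟩ := hTinf.exists_notMem_finset hfin.toFinset
    rw [Set.Finite.mem_toFinset, Set.mem_ofPred_eq] at htn
    push Not at htn
    obtain ⟨i, -, hi⟩ := htn (hTE t htT)
    obtain ⟨p, hp, τ, hτ, hlt⟩ := hi _ rfl
    obtain ⟨n, hn, rfl⟩ := htT
    refine ⟨p, hp, τ, fun y hy => hτ y (by simp [hy]), n + k i, ?_⟩
    have h9 := hs₂ p τ (fun y hy => hτ y (by simp [hy])) (fun y hy => hτ y (by simp [hy])) n (k i)
      (hkK i) (hk1 i) hn hlt
    rw [hB0] at h9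
    exact h9
  · -- transcendental ratio
    have hx1 : x 1 ≠ 0 := by
      intro h1
      apply hxalg
      refine ⟨x 0, ![1, 0], alg_infinity, ?_⟩
      funext i
      fin_cases i
      · simp
      · simp [h1]
    have ht : Transcendental ℚ (x 0 / x 1) := by
      intro h1
      apply hxalg
      refine ⟨x 1, ![x 0 / x 1, 1], alg_affine h1, ?_⟩
      funext i
      fin_cases i
      · simp only [Fin.zero_eta, Pi.smul_apply, Matrix.cons_val_zero, smul_eq_mul]
        field_simp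
      · simp
    obtain ⟨B₀, hB₀⟩ := emb_near_transc (s ∪ s₁) (x 0 / x 1) ht
    have hinf := hBinf.image hBinj
    obtain ⟨b, ⟨k, hk, rfl⟩, hbB⟩ := hinf.exists_notMem_finset B₀
    obtain ⟨s₂, hs₂alg, hs₂⟩ := hs₁ k
    obtain ⟨p, hp, τ, hτ1, hτ2, hlt⟩ := hB₀ _ (by
      change IsAlgebraic ℚ (B k 0 / B k 1)
      rw [div_eq_mul_inv]
      exact ((hB _).2 0).mul ((hB _).2 1).inv) hbB s₂ hs₂alg
    refine ⟨p, hp, τ, fun y hy => hτ1 y (by simp [hy]), 0 + k, ?_⟩
    have h9 := hs₂ p τ (fun y hy => hτ1 y (by simp [hy])) hτ2 0 k le_rfl hk hx1 hlt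
    rw [hB0] at h9
    exact h9

end

end Pool.Agent.L5helper26.PN
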