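import Pool.Agent.L5helper26.PN.Fib
import Pool.Agent.L5helper26.DM.TameEx

set_option autoImplicit false

/-! Endomorphisms of the projective plane which preserve a pencil of lines. -/

namespace Pool.Agent.L5helper26.PN

open MvPolynomial Pool.Agent.H936R2 Pool.Agent.R847.QP Pool.Agent.R847.Gap Pool.Agent.R847.PC
open Pool.Agent.Y199.DM Pool.Agent.L5helper26.DM

/-- The conclusion of the Dynamical Mordell-Lang conjecture. -/
def Prog (A : Set ℕ) : Prop :=
  ∃ T : Finset (ℕ × ℕ), A = {n : ℕ | ∃ q ∈ T, ∃ m : ℕ, n = q.1 * m + q.2}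

theorem jac_par' {ι K : Type} [Fintype ι] [DecidableEq ι] [Field K] {d : ℕ}
    {F : ι → MvPolynomial ι K} (hF : ∀ i, (F i).IsHomogeneous d) {a b : ι → K} (h : Par a b)
    (hb : (jac F b).det ≠ 0) : (jac F a).det ≠ 0 := by
  obtain ⟨δ, h1, rfl⟩ := h
  have h2 : jac F (δ • b) = δ ^ (d - 1) • jac F b := by
    ext i j
    exact eval_scale (pderiv j (F i)) (d - 1) ((hF i).pderiv) δ b
  rw [h2, Matrix.det_smul]
  exact mul_ne_zero (pow_ne_zero _ (pow_ne_zero _ h1)) hb

/-- The polynomial in one variable on a line through the centre. -/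
noncomputable def onLine (u : Fin 2 → ℂ) (g : MvPolynomial (Fin 2 ⊕ Unit) ℂ) : Polynomial ℂ :=
  aeval (Sum.elim (fun i => Polynomial.C (u i)) fun _ => Polynomial.X) g

theorem eval_onLine (u : Fin 2 → ℂ) (g : MvPolynomial (Fin 2 ⊕ Unit) ℂ) (w : ℂ) :
    (onLine u g).eval w = eval (Sum.elim u fun _ => w) g := by
  have h1 : (onLine u g).eval w = (Polynomial.evalRingHom w).comp
      (aeval (R := ℂ) (Sum.elim (fun i => Polynomial.C (u i)) fun _ => Polynomial.X) :
        MvPolynomial (Fin 2 ⊕ Unit) ℂ →ₐ[ℂ] Polynomial ℂ).toRingHom g := rfl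
  rw [h1]
  have h2 : (Polynomial.evalRingHom w).comp
      (aeval (R := ℂ) (Sum.elim (fun i => Polynomial.C (u i)) fun _ => Polynomial.X) :
        MvPolynomial (Fin 2 ⊕ Unit) ℂ →ₐ[ℂ] Polynomial ℂ).toRingHom =
      eval (Sum.elim u fun _ => w) := by
    apply MvPolynomial.ringHom_ext
    · intro c
      simp
    · rintro (i | i)
      · simp
      · simp
  rw [h2]

theorem vec_eq (v : Fin 2 ⊕ Unit → ℂ) :
    v = Sum.elim (v ∘ Sum.inl) fun _ => v (Sum.inr ()) := by
  funext i
  rcases i with i | i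
  · rfl
  · rfl

/-- The points of the line through the centre over `u`. -/
theorem vec_smul (v : Fin 2 ⊕ Unit → ℂ) (u : Fin 2 → ℂ) (c : ℂ) (hc : c ≠ 0)
    (h : v ∘ Sum.inl = c • u) : v = c • Sum.elim u fun _ => v (Sum.inr ()) / c := by
  funext i
  rcases i with i | i
  · exact congrFun h i
  · change v (Sum.inr ()) = c * (v (Sum.inr ()) / c)
    field_simp

/-- The centre. -/
def cen : Fin 2 ⊕ Unit → ℂ := Sum.elim 0 fun _ => 1

section

variable {d : ℕ} (F : Fin 2 → MvPolynomial (Fin 2) ℂ) (hF : ∀ i, (F i).IsHomogeneous d)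
  (h0 : ∀ x : Fin 2 → ℂ, (∀ i, eval x (F i) = 0) → x = 0)
  (R : Unit → MvPolynomial (Fin 2 ⊕ Unit) ℂ) (hR : ∀ j, (R j).IsHomogeneous d)

include hF hR in
theorem fibered_hom : ∀ i, (fibered F R i).IsHomogeneous d := by
  rintro (i | j)
  · exact (hF i).rename_isHomogeneous
  · exact hR j

include hF hR h0 in
/-- Points over preperiodic points of the pencil. -/
theorem preper_base (hd : 2 ≤ d) (a : Fin 2 ⊕ Unit → ℂ) (hx : a ∘ Sum.inl ≠ 0)
    (n m : ℕ) (hnm : n < m)
    (hpar : Par ((pt F)^[m] (a ∘ Sum.inl)) ((pt F)^[n] (a ∘ Sum.inl)))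
    (S : Set (MvPolynomial (Fin 2 ⊕ Unit) ℂ)) (hS : ∀ g ∈ S, ∃ e : ℕ, g.IsHomogeneous e) :
    Prog {n : ℕ | ∀ g ∈ S, eval ((pt (fibered F R))^[n] a) g = 0} := by
  classical
  have hf := fibered_hom F hF R hR
  set f := fibered F R with hfdef
  by_cases hpre : ∃ n m : ℕ, n ≠ m ∧ Par ((pt f)^[n] a) ((pt f)^[m] a)
  · obtain ⟨n, m, hlt, c, -, hc⟩ : ∃ n m : ℕ, n < m ∧ Par ((pt f)^[m] a) ((pt f)^[n] a) := by
      obtain ⟨n, m, hne, h⟩ := hpre
      rcases lt_or_gt_of_ne hne with h' | h'
      · exact ⟨n, m, h', h.symm⟩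
      · exact ⟨m, n, h', h⟩
    obtain ⟨q, rfl⟩ := Nat.exists_eq_add_of_lt hlt
    refine (tame_preper (Sum.inl 0) f hd hf a n (q + 1) (Nat.succ_pos q) c ?_).half.dml S
    rw [← Nat.add_assoc]
    exact hc
  have hnpar : ∀ n m, n ≠ m → ¬ Par ((pt f)^[n] a) ((pt f)^[m] a) := fun n m hne h =>
    hpre ⟨n, m, hne, h⟩
  obtain ⟨q, rfl⟩ := Nat.exists_eq_add_of_lt hnm
  have hxne : ∀ n, (pt F)^[n] (a ∘ Sum.inl) ≠ 0 := by
    intro n
    induction n with
    | zero => exact hx
    | succ n ih =>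
      rw [Function.iterate_succ_apply']
      exact pt_ne F h0 ih
  refine exists_progressions _ n (q + 1) (Nat.succ_pos q) fun r hinf t => ?_
  -- all points of the class lie on one line
  have hline : ∀ t, Par ((pt F)^[n + r + (q + 1) * t] (a ∘ Sum.inl))
      ((pt F)^[n + r] (a ∘ Sum.inl)) := by
    intro t
    induction t with
    | zero => exact Par.refl _
    | succ t ih =>
      have e : n + r + (q + 1) * (t + 1) = (r + (q + 1) * t) + (n + q + 1) := by ring
      have e' : n + r + (q + 1) * t = (r + (q + 1) * t) + n := by ring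
      rw [e, Function.iterate_add_apply]
      rw [e', Function.iterate_add_apply] at ih
      exact (hpar.iter hF _).trans ih
  set u := (pt F)^[n + r] (a ∘ Sum.inl) with hu
  choose c hc0 hc using hline
  let b : ℕ → Fin 2 ⊕ Unit → ℂ := fun t => (pt f)^[n + r + (q + 1) * t] a
  have hb : ∀ t, b t = c t • Sum.elim u fun _ => b t (Sum.inr ()) / c t := by
    intro t
    refine vec_smul (b t) u (c t) (hc0 t) ?_
    rw [← hc t]
    exact fibered_base F R a _
  let w : ℕ → ℂ := fun t => b t (Sum.inr ()) / c t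
  have hw : Function.Injective w := by
    intro t t' htt
    by_contra hne
    have hne' : n + r + (q + 1) * t ≠ n + r + (q + 1) * t' := by
      intro h
      apply hne
      have h1 : (q + 1) * t = (q + 1) * t' := by omega
      exact Nat.eq_of_mul_eq_mul_left (Nat.succ_pos q) h1
    apply hnpar _ _ hne'
    refine ⟨c t / c t', div_ne_zero (hc0 t) (hc0 t'), ?_⟩
    change b t = (c t / c t') • b t'
    rw [hb t, hb t', smul_smul, div_mul_cancel₀ _ (hc0 t')]
    have h2 : b t (Sum.inr ()) / c t = b t' (Sum.inr ()) / c t' := htt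
    rw [h2]
  have hval : ∀ (g : MvPolynomial (Fin 2 ⊕ Unit) ℂ) (e : ℕ), g.IsHomogeneous e → ∀ t,
      (eval (b t) g = 0 ↔ (onLine u g).eval (w t) = 0) := by
    intro g e hg t
    have h1 : eval (b t) g = c t ^ e * (onLine u g).eval (w t) := by
      rw [eval_onLine]
      have h2 := eval_scale g e hg (c t) (Sum.elim u fun _ => w t)
      rw [← h2]
      congr 1
      rw [hb t]
      rfl
    rw [h1, mul_eq_zero]
    constructor
    · rintro (h | h)
      · exact absurd h (pow_ne_zero _ (hc0 t))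
      · exact h
    · exact fun h => Or.inr h
  change ∀ g ∈ S, eval (b t) g = 0
  intro g hg
  obtain ⟨e, he⟩ := hS g hg
  rw [hval g e he]
  have h3 : onLine u g = 0 := by
    refine Polynomial.eq_zero_of_infinite_isRoot _ ?_
    refine ((hinf.image hw.injOn)).mono ?_
    rintro _ ⟨t', ht', rfl⟩
    exact (hval g e he t').1 (ht' g hg)
  rw [h3, Polynomial.eval_zero]

include hF hR in
/-- The centre. -/
theorem centre (hd : 2 ≤ d) (a : Fin 2 ⊕ Unit → ℂ) (hx : a ∘ Sum.inl = 0)
    (S : Set (MvPolynomial (Fin 2 ⊕ Unit) ℂ)) :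
    Prog {n : ℕ | ∀ g ∈ S, eval ((pt (fibered F R))^[n] a) g = 0} := by
  classical
  have hf := fibered_hom F hF R hR
  set y := a (Sum.inr ()) with hy
  have ha : a = y • cen := by
    funext i
    rcases i with i | i
    · have := congrFun hx i
      change a (Sum.inl i) = y * 0
      rw [mul_zero]
      exact this
    · change a (Sum.inr ()) = y * 1
      rw [mul_one]
  have h1 : pt (fibered F R) cen = (eval cen (R ())) • cen := by
    funext i
    rcases i with i | i
    · have h2 := congrFun (fibered_base1 F R cen) i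
      change pt (fibered F R) _ (Sum.inl i) = _ at h2
      rw [h2]
      have h3 : cen ∘ Sum.inl = 0 := rfl
      rw [h3, pt_zero F (by omega) hF]
      change (0 : ℂ) = _ * 0
      rw [mul_zero]
    · change eval _ (R ()) = _ * 1
      rw [mul_one]
  have h2 : pt (fibered F R) a = (y ^ (d - 1) * eval cen (R ())) • a := by
    have h3 := pt_smul' (fibered F R) hf y cen 1
    rw [← ha] at h3
    simp only [Function.iterate_one, pow_one] at h3
    rw [h3, h1]
    conv_rhs => rw [ha]
    rw [smul_smul, smul_smul]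
    congr 1
    obtain ⟨e, rfl⟩ : ∃ e, d = e + 1 := ⟨d - 1, by omega⟩
    rw [Nat.add_sub_cancel, pow_succ]
    ring
  exact (tame_preper (Sum.inl 0) (fibered F R) hd hf a 0 1 one_pos _ h2).half.dml S

end

end Pool.Agent.L5helper26.PN
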